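import Mathlib

set_option autoImplicit false

/-! There are many primes up to `y`. -/

namespace Pool.Agent.N469.SQ
open Finset

/-- the primes up to `y` -/
def PR (y : ℕ) : Finset ℕ := (range (y + 1)).filter Nat.Prime

lemma mem_PR {y p : ℕ} : p ∈ PR y ↔ p.Prime ∧ p ≤ y := by
  unfold PR
  rw [mem_filter, mem_range, Nat.lt_succ_iff]
  tauto

lemma card_PR (y : ℕ) (hy : 16 ≤ y) : (y : ℝ) / (2 * Real.log y) ≤ (PR y).card := by
  have h1 := Chebyshev.pi_ge y
  have h2 : Nat.primeCounting y = (PR y).card := by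
    unfold PR
    rw [Nat.primeCounting, Nat.primeCounting', Nat.count_eq_card_filter_range]
  rw [h2] at h1
  refine le_trans ?_ h1
  have hy16 : (16 : ℝ) ≤ y := by exact_mod_cast hy
  have hlog : 0 < Real.log y := Real.log_pos (by linarith)
  rw [div_le_div_iff₀ (by positivity) hlog]
  have h3 : (y : ℝ) ≤ 2 * (y * Real.log 2 - Real.log (y + 1)) := by
    have e1 := Real.log_two_gt_d9
    have e2 : Real.log ((y : ℝ) + 1) ≤ (y + 1) / 16 + 2 := by
      have e3 : Real.log (((y : ℝ) + 1) / 16) ≤ (y + 1) / 16 - 1 := Real.log_le_sub_one_of_pos (by positivity)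
      rw [Real.log_div (by positivity) (by norm_num)] at e3
      have e4 : Real.log 16 = 4 * Real.log 2 := by
        rw [show (16 : ℝ) = 2 ^ 4 by norm_num, Real.log_pow]
        push_cast
        ring
      have e5 := Real.log_two_lt_d9
      rw [e4] at e3
      linarith
    nlinarith
  calc (y : ℝ) * Real.log y ≤ (2 * (y * Real.log 2 - Real.log (y + 1))) * Real.log y := mul_le_mul_of_nonneg_right h3 hlog.le
    _ = _ := by ring

/-- the primes up to `y` satisfy the condition -/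
lemma PR_cond (δ : ℝ) (hδ : 0 < δ) : ∃ (δ' : ℝ) (N₀ : ℕ), 0 < δ' ∧ ∀ N, N₀ ≤ N → ∀ y : ℕ, Real.log N ^ (2 + δ) ≤ y →
    1 ≤ y ∧ (y : ℝ) ^ (1 / 2 + δ') * Real.log N ≤ (PR y).card := by
  obtain ⟨d, hd⟩ : ∃ d, d = min δ 1 := ⟨_, rfl⟩
  have hd0 : 0 < d := by rw [hd]; exact lt_min hδ one_pos
  have hd1 : d ≤ 1 := by rw [hd]; exact min_le_right _ _
  have hdδ : d ≤ δ := by rw [hd]; exact min_le_left _ _
  have h1 := (isLittleO_log_rpow_atTop (show 0 < d / 16 by positivity)).bound (show (0 : ℝ) < 1 / 2 by norm_num)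
  obtain ⟨Y, hY⟩ := Filter.eventually_atTop.1 h1
  have h2 := (Real.tendsto_log_atTop.comp (tendsto_natCast_atTop_atTop (R := ℝ))).eventually_ge_atTop (max Y 16)
  obtain ⟨N₀, hN₀⟩ := Filter.eventually_atTop.1 h2
  refine ⟨d / 16, N₀, by positivity, fun N hN y hy => ?_⟩
  have hL : max Y 16 ≤ Real.log N := hN₀ N hN
  obtain ⟨L, hLd⟩ : ∃ L, L = Real.log (N : ℝ) := ⟨_, rfl⟩
  rw [← hLd] at hL hy ⊢
  have hL16 : 16 ≤ L := (le_max_right _ _).trans hL
  have hLY : Y ≤ L := (le_max_left _ _).trans hL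
  have hL1 : 1 ≤ L := by linarith
  have hL0 : 0 < L := by linarith
  have hyd : L ^ (2 + d) ≤ y := le_trans (Real.rpow_le_rpow_of_exponent_le hL1 (by linarith)) hy
  have hyL : L ≤ y := by
    refine le_trans ?_ hyd
    calc L = L ^ (1 : ℝ) := (Real.rpow_one _).symm
      _ ≤ _ := Real.rpow_le_rpow_of_exponent_le hL1 (by linarith)
  have hy16 : (16 : ℝ) ≤ y := by linarith
  have hy16n : 16 ≤ y := by exact_mod_cast hy16
  have hy0 : (0 : ℝ) < y := by linarith
  have hlogy : 0 < Real.log y := Real.log_pos (by linarith)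
  refine ⟨by omega, ?_⟩
  have h3 := hY y (hLY.trans hyL)
  rw [Real.norm_of_nonneg hlogy.le, Real.norm_of_nonneg (by positivity)] at h3
  have h4 : L ≤ (y : ℝ) ^ (1 / 2 - d / 8) := by
    calc L = L ^ (1 : ℝ) := (Real.rpow_one _).symm
      _ ≤ L ^ ((2 + d) * (1 / 2 - d / 8)) := Real.rpow_le_rpow_of_exponent_le hL1 (by nlinarith)
      _ = (L ^ (2 + d)) ^ (1 / 2 - d / 8) := by rw [Real.rpow_mul hL0.le]
      _ ≤ _ := Real.rpow_le_rpow (by positivity) hyd (by linarith)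
  refine le_trans ?_ (card_PR y hy16n)
  rw [le_div_iff₀ (by positivity)]
  calc (y : ℝ) ^ (1 / 2 + d / 16) * L * (2 * Real.log y) ≤ (y : ℝ) ^ (1 / 2 + d / 16) * (y : ℝ) ^ (1 / 2 - d / 8) * (2 * (1 / 2 * (y : ℝ) ^ (d / 16))) := by
        gcongr
    _ = (y : ℝ) ^ (1 / 2 + d / 16) * (y : ℝ) ^ (1 / 2 - d / 8) * (y : ℝ) ^ (d / 16) := by ring
    _ = (y : ℝ) ^ (1 : ℝ) := by
        rw [← Real.rpow_add hy0, ← Real.rpow_add hy0]
        congr 1
        ring
    _ = y := Real.rpow_one _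

end Pool.Agent.N469.SQ
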