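import Pool.Agent.N469.SQ.One
import Pool.Agent.W93.AU2

set_option autoImplicit false

/-! Goldbach's conjecture for random integers whose characteristic function is large at few frequencies only. -/

namespace Pool.Agent.N469.SQ
open Finset
open Pool.Agent.H807R2.Dav
open Pool.Agent.H373R2.T7
open Pool.Agent.W93.DG
open Pool.Agent.W93.RD
open Pool.Agent.W93.TD
open Pool.Agent.W93.AU
open Pool.Agent.N469.PT
open Pool.Agent.N469.SM (SS mem_SS one_mem_SS SS_mono card_SS_le card_SS_pos FL fl_one fl_var conj_ee')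

/-- few of the even values fail -/
theorem fl_gold (U W C : ℕ) (ε : ℝ) (hε : 0 < ε) : ∃ X₀ : ℕ, ∀ X : ℕ, X₀ ≤ X → ∀ M : ℕ, 2 * X ≤ M →
    ∀ (ι : Type) (Ω : Finset ι) (p : ι → ℝ) (Y : ι → ℤ), FL X M C (U + (2 * W + 6) + 1 + 6) Ω p Y →
    (∀ ω ∈ Ω, Y ω ≤ (X : ℤ)) →
    ∀ E Sm : ι → Prop, [DecidablePred E] → [DecidablePred Sm] →
    (∀ ω ∈ Ω, 1 ≤ Y ω → (Y ω : ℝ) < (X : ℝ) / Real.log X ^ (W + 1) → Sm ω) →
    ∑ ω ∈ Ω, (if Sm ω then p ω else 0) ≤ 1 / Real.log X ^ (U + 1) →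
    (∀ ω ∈ Ω, E ω → 0 < Y ω ∧ 2 ∣ Y ω ∧
      ¬ (|(Pool.Agent.H560R3.GB.g (Y ω).toNat : ℝ) - Pool.Agent.H560R3.GB.HL (Y ω).toNat| ≤
          ε * Pool.Agent.H560R3.GB.HL (Y ω).toNat ∧
        ∃ p q : ℕ, p.Prime ∧ q.Prime ∧ p ≠ q ∧ p + q = (Y ω).toNat)) →
    ∑ ω ∈ Ω, (if E ω then p ω else 0) ≤ 1 / Real.log X ^ U := by
  classical
  obtain ⟨B₁, hvar⟩ := fl_var (U + (2 * W + 6) + 1) C
  obtain ⟨B₂, hB₂⟩ : ∃ B₂, B₂ = max B₁ 3 := ⟨_, rfl⟩
  obtain ⟨k1, h1⟩ := hvar (B₂ + 1)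
  obtain ⟨N2, h2⟩ := Pool.Agent.W93.GB.good_of ε hε 1 (W + 1) (B₂ + 1)
  obtain ⟨k4, h4⟩ := ev_L' 4
  refine ⟨k1 + N2 + k4 + 4, fun X hk M hXM ι Ω p Yv hlaw hYle E Sm _ _ hSm hanti hE => ?_⟩
  have hX0 : (0 : ℝ) < X := by exact_mod_cast (by omega : 0 < X)
  have hM0 : (0 : ℝ) < M := by exact_mod_cast (by omega : 0 < M)
  have hL4 := h4 X (by omega)
  obtain ⟨L, hL⟩ : ∃ L, L = Real.log (X : ℝ) := ⟨_, rfl⟩
  rw [← hL] at hL4 hSm hanti ⊢
  have hL2' : 2 ≤ L := by linarith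
  have hL0 : 0 < L := by linarith
  -- the level
  obtain ⟨z, hz⟩ : ∃ z, z = ⌈L ^ B₂⌉₊ := ⟨_, rfl⟩
  have hz1 : L ^ B₂ ≤ z := by rw [hz]; exact Nat.le_ceil _
  have hz2 : (z : ℝ) ≤ L ^ (B₂ + 1) := by
    have e1 : (z : ℝ) < L ^ B₂ + 1 := by rw [hz]; exact Nat.ceil_lt_add_one (by positivity)
    have e2 : 1 ≤ L ^ B₂ := one_le_pow₀ (by linarith)
    rw [pow_succ]
    nlinarith
  have hz3 : L ^ B₁ ≤ z := (pow_le_pow_right₀ (by linarith) (by rw [hB₂]; exact le_max_left _ _)).trans hz1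
  have hz4 : L ^ 3 ≤ z := (pow_le_pow_right₀ (by linarith) (by rw [hB₂]; exact le_max_right _ _)).trans hz1
  obtain ⟨A, hA⟩ : ∃ A : ℕ → ℂ, A = fun r => FF (fun n => ArithmeticFunction.vonMangoldt n) X M r *
        FF (fun n => ArithmeticFunction.vonMangoldt n - lamz z n) X M r := ⟨_, rfl⟩
  have hV := h1 X (by omega) M (by omega) z (by rw [← hL]; exact hz3) (by rw [← hL]; exact hz2) ι Ω p Yv hlaw
    (fun n => ArithmeticFunction.vonMangoldt n) L hL0.le (by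
      intro n hn
      rw [mem_Icc] at hn
      rw [abs_of_nonneg ArithmeticFunction.vonMangoldt_nonneg]
      refine ArithmeticFunction.vonMangoldt_le_log.trans ?_
      rw [hL]
      apply Real.log_le_log
      · exact_mod_cast (by omega : 0 < n)
      · exact_mod_cast hn.2) A (by
      intro r
      rw [hA]
      simp only [norm_mul])
  rw [← hL] at hV
  -- pointwise
  have hpt : ∀ d ∈ Ω, (if E d then p d else 0) ≤ (if Sm d then p d else 0) +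
      (L ^ (W + 2)) ^ 2 / (M * X) ^ 2 * (p d * ‖EE A M (Yv d)‖ ^ 2) := by
    intro d hd
    have hp := hlaw.nonneg d hd
    have hnn1 : 0 ≤ (if Sm d then p d else 0) := by
      split_ifs
      · exact hp
      · exact le_rfl
    have hnn2 : 0 ≤ (L ^ (W + 2)) ^ 2 / (M * X) ^ 2 * (p d * ‖EE A M (Yv d)‖ ^ 2) := by positivity
    by_cases hEd : E d
    swap
    · rw [if_neg hEd]; exact add_nonneg hnn1 hnn2
    rw [if_pos hEd]
    obtain ⟨hn0, hn2, hnG⟩ := hE d hd hEd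
    have hSmd := hSm d hd
    have hYd := hYle d hd
    obtain ⟨n, hn⟩ : ∃ n : ℤ, n = Yv d := ⟨_, rfl⟩
    rw [← hn] at hn0 hn2 hnG hnn2 hSmd hYd ⊢
    obtain ⟨y, hy⟩ : ∃ y : ℕ, (y : ℤ) = n := ⟨n.toNat, by omega⟩
    have hy' : n.toNat = y := by omega
    rw [hy'] at hnG
    have hyX : y ≤ X := by
      rw [← hy] at hYd
      exact_mod_cast hYd
    by_cases hsm : (X : ℝ) / L ^ (W + 1) ≤ y
    · -- large
      have hdiff : ¬ |∑ a ∈ Icc 1 (1 * X), ArithmeticFunction.vonMangoldt a * (lamI ((y : ℤ) - a) - lamzI z ((y : ℤ) - a))| ≤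
          X / L ^ (W + 1 + 1) := by
        intro hcon
        apply hnG
        have := h2 X (by omega) z (by rw [← hL]; exact hz4) (by rw [← hL]; exact hz2) y (by omega) (by rw [← hL]; exact hsm)
          (by omega) (by rw [← hL]; exact hcon)
        exact this
      push Not at hdiff
      rw [one_mul] at hdiff
      have hconv := EE_conv (fun n => ArithmeticFunction.vonMangoldt n) (fun n => ArithmeticFunction.vonMangoldt n - lamz z n) X M (by omega)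
        hXM n hn0 (by omega)
      rw [← hA] at hconv
      have hS : ∑ a ∈ Icc 1 X, ArithmeticFunction.vonMangoldt a *
          (if 1 ≤ n - (a : ℤ) then (fun n => ArithmeticFunction.vonMangoldt n - lamz z n) (n - (a : ℤ)).toNat else 0) =
          ∑ a ∈ Icc 1 X, ArithmeticFunction.vonMangoldt a * (lamI ((y : ℤ) - a) - lamzI z ((y : ℤ) - a)) := by
        apply sum_congr rfl
        intro a _
        rw [hy]
        unfold lamI lamzI
        by_cases h7 : 1 ≤ n - (a : ℤ)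
        · rw [if_pos h7, if_pos h7, if_pos h7]
        · rw [if_neg h7, if_neg h7, if_neg h7, sub_zero]
      rw [hS] at hconv
      obtain ⟨S, hSd⟩ : ∃ S, S = ∑ a ∈ Icc 1 X, ArithmeticFunction.vonMangoldt a * (lamI ((y : ℤ) - a) - lamzI z ((y : ℤ) - a)) := ⟨_, rfl⟩
      rw [← hSd] at hconv hdiff
      have hnorm : ‖EE A M n‖ = M * |S| := by
        rw [hconv, Complex.norm_real, Real.norm_eq_abs, abs_mul, abs_of_pos hM0]
      have h8 : 1 ≤ (L ^ (W + 2)) ^ 2 / (M * X) ^ 2 * ‖EE A M n‖ ^ 2 := by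
        rw [hnorm, div_mul_eq_mul_div, le_div_iff₀ (by positivity), one_mul, ← mul_pow]
        apply pow_le_pow_left₀ (by positivity)
        have h9 : (X : ℝ) ≤ L ^ (W + 2) * |S| := by
          rw [div_lt_iff₀ (by positivity)] at hdiff
          rw [mul_comm]
          exact hdiff.le
        calc (M : ℝ) * X ≤ M * (L ^ (W + 2) * |S|) := mul_le_mul_of_nonneg_left h9 hM0.le
          _ = _ := by ring
      have h10 : p d ≤ (L ^ (W + 2)) ^ 2 / (M * X) ^ 2 * (p d * ‖EE A M n‖ ^ 2) := by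
        calc p d = p d * 1 := (mul_one _).symm
          _ ≤ p d * ((L ^ (W + 2)) ^ 2 / (M * X) ^ 2 * ‖EE A M n‖ ^ 2) := mul_le_mul_of_nonneg_left h8 hp
          _ = _ := by ring
      linarith
    · -- small
      push Not at hsm
      have h7 := hSmd (by omega) (by rw [← hy]; exact_mod_cast hsm)
      rw [if_pos h7]
      linarith
  refine (sum_le_sum hpt).trans ?_
  rw [sum_add_distrib, ← mul_sum]
  have h7 : (L ^ (W + 2)) ^ 2 / ((M : ℝ) * X) ^ 2 * ∑ d ∈ Ω, p d * ‖EE A M (Yv d)‖ ^ 2 ≤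
      (L ^ (W + 2)) ^ 2 * (L ^ 2 * (1 / L ^ (U + (2 * W + 6) + 1))) := by
    calc _ ≤ (L ^ (W + 2)) ^ 2 / ((M : ℝ) * X) ^ 2 * ((L * M * X) ^ 2 / L ^ (U + (2 * W + 6) + 1)) :=
          mul_le_mul_of_nonneg_left hV (by positivity)
      _ = _ := by
          have : ((M : ℝ) * X) ^ 2 ≠ 0 := by positivity
          field_simp
  have h9 := gl_num L L 1 U W (by linarith) hL0.le (by rw [one_mul]) (by rw [one_pow]; linarith)
  linarith

/-- changing the sign and shifting does not change the size of the characteristic function -/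
lemma FL_shift {ι : Type} {X M C V : ℕ} {Ω : Finset ι} {p : ι → ℝ} {f Y : ι → ℤ} (h : FL X M C V Ω p f) (c : ℤ)
    (hY : (∀ ω, Y ω = c + f ω) ∨ (∀ ω, Y ω = c - f ω)) : FL X M C V Ω p Y := by
  refine ⟨h.nonneg, h.le_one, ?_⟩
  obtain ⟨T, h1, h2⟩ := h.few
  refine ⟨T, h1, fun t ht htT => ?_⟩
  refine le_trans (le_of_eq ?_) (h2 t ht htT)
  rcases hY with hY | hY
  · have e1 : ∑ ω ∈ Ω, ((p ω : ℝ) : ℂ) * ee ((Y ω : ℝ) * ((t : ℝ) / (M : ℝ))) =
        ee ((c : ℝ) * ((t : ℝ) / (M : ℝ))) * ∑ ω ∈ Ω, ((p ω : ℝ) : ℂ) * ee ((f ω : ℝ) * ((t : ℝ) / (M : ℝ))) := by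
      rw [mul_sum]
      apply sum_congr rfl
      intro ω _
      have e2 : (Y ω : ℝ) * ((t : ℝ) / (M : ℝ)) = (c : ℝ) * ((t : ℝ) / (M : ℝ)) + (f ω : ℝ) * ((t : ℝ) / (M : ℝ)) := by
        rw [hY]; push_cast; ring
      rw [e2, ee_add]
      ring
    rw [e1, norm_mul, norm_ee, one_mul]
  · have e1 : ∑ ω ∈ Ω, ((p ω : ℝ) : ℂ) * ee ((Y ω : ℝ) * ((t : ℝ) / (M : ℝ))) =
        ee ((c : ℝ) * ((t : ℝ) / (M : ℝ))) * (starRingEnd ℂ) (∑ ω ∈ Ω, ((p ω : ℝ) : ℂ) * ee ((f ω : ℝ) * ((t : ℝ) / (M : ℝ)))) := by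
      rw [map_sum, mul_sum]
      apply sum_congr rfl
      intro ω _
      rw [map_mul, conj_ee', Complex.conj_ofReal]
      have e2 : (Y ω : ℝ) * ((t : ℝ) / (M : ℝ)) = (c : ℝ) * ((t : ℝ) / (M : ℝ)) + -((f ω : ℝ) * ((t : ℝ) / (M : ℝ))) := by
        rw [hY]; push_cast; ring
      rw [e2, ee_add]
      ring
    rw [e1, norm_mul, norm_ee, one_mul, RCLike.norm_conj]

/-- the law for an integer factor -/
lemma sm_FLz (δ : ℝ) (hδ : 0 < δ) (B K Cx V : ℕ) (κ : ℤ) (hCx : 1 ≤ Cx) (hκ : κ ≠ 0) : ∃ C N₀ : ℕ, ∀ N, N₀ ≤ N → ∀ (Ω : Finset ℕ) (p : ℕ → ℝ),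
    Sm δ B K N Ω p → ∀ cc : ℤ, (∀ v ∈ Ω, p v ≤ 1 / Real.log ((Cx * N : ℕ) : ℝ) ^ V) ∧ ∑ v ∈ Ω, p v = 1 ∧
      FL (Cx * N) (2 * (Cx * N)) C V Ω p (fun v => cc + κ * v) := by
  obtain ⟨C, N₀, h⟩ := sm_FL δ hδ B K Cx κ.natAbs V hCx (by omega)
  refine ⟨C, N₀, fun N hN Ω p hL cc => ?_⟩
  obtain ⟨h1, h2, h3⟩ := h N hN Ω p hL 0
  refine ⟨h1, h2, FL_shift h3 cc ?_⟩
  rcases le_or_gt 0 κ with h0 | h0
  · left
    intro v
    have : (κ.natAbs : ℤ) = κ := Int.natAbs_of_nonneg h0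
    rw [this, zero_add]
  · right
    intro v
    have : (κ.natAbs : ℤ) = -κ := by omega
    rw [this, zero_add]
    ring

open Classical in
/-- few of the integers composed of primes from `P` lie in a short interval -/
lemma sm_anti (δ : ℝ) (hδ : 0 < δ) (B K Cx U : ℕ) (hCx : 1 ≤ Cx) : ∃ W N₀ : ℕ, ∀ N, N₀ ≤ N → ∀ (Ω : Finset ℕ) (p : ℕ → ℝ),
    Sm δ B K N Ω p → ∀ F : ℕ → Prop,
      (∀ v ∈ Ω, F v → ∀ v' ∈ Ω, F v' → |(v : ℝ) - v'| ≤ 2 * (((Cx * N : ℕ) : ℝ) / Real.log ((Cx * N : ℕ) : ℝ) ^ (W + 1))) →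
      ∑ v ∈ Ω, (if F v then p v else 0) ≤ 1 / Real.log ((Cx * N : ℕ) : ℝ) ^ U := by
  obtain ⟨m, hm⟩ := sm_facts δ hδ B K Cx hCx
  obtain ⟨j, hj⟩ : ∃ j, j = 2 * (U + 1) + 6 := ⟨_, rfl⟩
  obtain ⟨N1, h1⟩ := hm (j + 2)
  obtain ⟨N2, h2⟩ := ev_L' ((6 * Cx * B : ℕ) : ℝ)
  refine ⟨K * j, N1 + N2 + 3, fun N hN Ω p hL F hF => ?_⟩
  obtain ⟨P, y, x, hxN, hNx, hP, hy1, hyK, hcard, rfl, rfl⟩ := hL
  obtain ⟨ρ, w, hyp, f1, f2, f3⟩ := h1 N (by omega) P y x hxN hNx hP hy1 hyK hcard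
  have f5 := h2 N (by omega)
  have hy1r : (1 : ℝ) ≤ y := by exact_mod_cast hy1
  have hy0 : (0 : ℝ) < y := by linarith
  obtain ⟨X, hX⟩ : ∃ X, X = Cx * N := ⟨_, rfl⟩
  rw [← hX] at f1 hF ⊢
  have hNX : N ≤ X := by rw [hX]; exact Nat.le_mul_of_pos_left _ (by omega)
  have hX3 : 3 ≤ X := by omega
  have hX0 : (0 : ℝ) < X := by exact_mod_cast (by omega : 0 < X)
  obtain ⟨L, hLd⟩ : ∃ L, L = Real.log (X : ℝ) := ⟨_, rfl⟩
  have hLX0 : 0 < L := by rw [hLd]; exact Real.log_pos (by exact_mod_cast (by omega : 1 < X))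
  have hNX' : Real.log N ≤ L := by
    rw [hLd]
    exact Real.log_le_log (by exact_mod_cast (by omega : 0 < N)) (by exact_mod_cast hNX)
  rw [← hLd] at f1 hF ⊢
  obtain ⟨S, hS⟩ : ∃ S : ℝ, S = (SS P x).card := ⟨_, rfl⟩
  have hS1 : (1 : ℝ) ≤ S := by rw [hS]; exact_mod_cast card_SS_pos P f3
  have hS0 : 0 < S := by linarith
  have hρ4 := hyp.r4
  have hρ1 : 1 ≤ ρ := by linarith
  have hρ0 := hyp.r0
  have hyρ : (y : ℝ) ≤ ρ ^ 2 := by
    have a1 := hyp.yw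
    have a2 := hyp.w2
    have a3 : 1 ≤ w ^ 2 := by nlinarith
    nlinarith
  have hbig : 18 * (y : ℝ) * L ^ U ≤ ρ ^ j := by
    calc 18 * (y : ℝ) * L ^ U ≤ ρ ^ 6 * (ρ ^ 2) * (ρ ^ 2) ^ U := by
          have e1 : (18 : ℝ) ≤ ρ ^ 6 := by
            calc (18 : ℝ) ≤ 4 ^ 6 := by norm_num
              _ ≤ ρ ^ 6 := pow_le_pow_left₀ (by norm_num) hρ4 6
          have e2 : L ^ U ≤ (ρ ^ 2) ^ U := pow_le_pow_left₀ hLX0.le (f1.trans hyρ) U
          gcongr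
      _ = ρ ^ j := by rw [hj]; ring
  -- the count
  have hcount : (((SS P x).filter F).card : ℝ) ≤ S / L ^ U := by
    rcases ((SS P x).filter F).eq_empty_or_nonempty with h0 | ⟨m₀, hm₀⟩
    · rw [h0, card_empty]
      push_cast
      positivity
    rw [mem_filter] at hm₀
    have e1 := loc P y hy1 hyp.le 1 m₀ le_rfl (2 * ((X : ℝ) / L ^ (K * j + 1))) (by positivity) ((SS P x).filter F) (by
        intro n hn
        rw [mem_filter, mem_SS] at hn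
        exact ⟨hn.1.1.1, hn.1.2⟩) (by intro n _; simp) (by
        intro n hn
        rw [mem_filter] at hn
        exact hF n hn.1 hn.2 m₀ hm₀.1 hm₀.2)
    have e2 : ((SS P ⌊3 * (2 * ((X : ℝ) / L ^ (K * j + 1))) / ((1 : ℕ) : ℝ)⌋₊).card : ℝ) ≤ ρ ^ (-(j : ℤ)) * S := by
      rw [hS]
      have hxr : (0 : ℝ) < x := by exact_mod_cast (by omega : 0 < x)
      have hXx : (X : ℝ) ≤ Cx * B * x := by
        have : X ≤ Cx * B * x := by
          rw [hX, mul_assoc]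
          exact Nat.mul_le_mul_left _ hNx
        exact_mod_cast this
      have e3 : 3 * (2 * ((X : ℝ) / L ^ (K * j + 1))) / ((1 : ℕ) : ℝ) = 6 * X / (L * L ^ (K * j)) := by
        rw [Nat.cast_one, div_one, pow_succ, mul_comm (L ^ (K * j)) L]
        ring
      have e4 : (6 : ℝ) * X ≤ L * x := by
        calc (6 : ℝ) * X ≤ 6 * (Cx * B * x) := by gcongr
          _ = ((6 * Cx * B : ℕ) : ℝ) * x := by push_cast; ring
          _ ≤ L * x := mul_le_mul_of_nonneg_right (f5.trans hNX') hxr.le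
      have e5 : (y : ℝ) ^ j ≤ L ^ (K * j) := by
        rw [pow_mul]
        exact pow_le_pow_left₀ hy0.le (hyK.trans (pow_le_pow_left₀ (Real.log_natCast_nonneg _) hNX' K)) j
      have e6 : 0 < L ^ (K * j) := by positivity
      have e8 : 6 * (X : ℝ) / (L * L ^ (K * j)) * (y : ℝ) ^ j ≤ x := by
        rw [div_mul_eq_mul_div, div_le_iff₀ (by positivity)]
        calc 6 * (X : ℝ) * (y : ℝ) ^ j ≤ (L * x) * L ^ (K * j) := by gcongr
          _ = _ := by ring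
      have e9 : (1 : ℝ) ≤ (y : ℝ) ^ j := one_le_pow₀ hy1r
      rw [e3]
      apply ratf hyp _ _ (by positivity)
      · refine le_trans ?_ e8
        exact le_mul_of_one_le_right (by positivity) e9
      · rw [zpow_natCast]
        exact e8
    have e3 : (9 : ℝ) * y * (ρ ^ (-(j : ℤ)) * S) ≤ S / L ^ U / 2 := by
      rw [zpow_neg, zpow_natCast, div_div, le_div_iff₀ (by positivity)]
      calc (9 : ℝ) * y * ((ρ ^ j)⁻¹ * S) * (L ^ U * 2) = (18 * y * L ^ U) * (ρ ^ j)⁻¹ * S := by ring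
        _ ≤ ρ ^ j * (ρ ^ j)⁻¹ * S := by gcongr
        _ = S := by rw [mul_inv_cancel₀ (by positivity), one_mul]
    have e4 : (9 : ℝ) ≤ S / L ^ U / 2 := by
      rw [div_div, le_div_iff₀ (by positivity)]
      have g1 : ρ ^ j ≤ S := by
        rw [hS]
        exact low hyp j ((Nat.pow_le_pow_right (by omega) (by omega)).trans f2)
      refine le_trans ?_ (hbig.trans g1)
      have : (0 : ℝ) < L ^ U := by positivity
      nlinarith
    calc (((SS P x).filter F).card : ℝ) ≤ 9 + 9 * y * ((SS P ⌊3 * (2 * ((X : ℝ) / L ^ (K * j + 1))) / ((1 : ℕ) : ℝ)⌋₊).card : ℝ) := e1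
      _ ≤ 9 + 9 * y * (ρ ^ (-(j : ℤ)) * S) := by gcongr
      _ ≤ S / L ^ U / 2 + S / L ^ U / 2 := add_le_add e4 e3
      _ = _ := by ring
  rw [← sum_filter, sum_const, nsmul_eq_mul, ← hS]
  calc (((SS P x).filter F).card : ℝ) * (1 / S) ≤ (S / L ^ U) * (1 / S) := mul_le_mul_of_nonneg_right hcount (by positivity)
    _ = 1 / L ^ U := by field_simp

end Pool.Agent.N469.SQ
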