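import Pool.Agent.N469.SM.Base

set_option autoImplicit false

/-! Integers composed of primes from a given finite set: the ratio of the counting function. -/

namespace Pool.Agent.N469.SQ
open Finset
open Pool.Agent.N469.SM (SS mem_SS one_mem_SS SS_mono SS_sub pf_mul pf_dvd card_SS_le card_SS_pos ratio0 exists_div)

/-- standing hypotheses on the set of primes: `P` has at least `ρ log₂ N` elements, all at most `y`, where `ρ ≥ √y w`
and `w` is at least a fixed power of `y` -/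
structure Hyp (P : Finset ℕ) (y : ℕ) (ρ w : ℝ) (m N : ℕ) : Prop where
  prime : ∀ p ∈ P, p.Prime
  le : ∀ p ∈ P, p ≤ y
  card : ρ * Nat.log 2 N ≤ P.card
  r0 : 0 < ρ
  w2 : 2 ≤ w
  yw : (y : ℝ) * w ^ 2 ≤ ρ ^ 2
  wm : (y : ℝ) ≤ w ^ m
  y4 : 4 ≤ y
  n2 : 2 ≤ N

lemma Hyp.card_le {P : Finset ℕ} {y : ℕ} {ρ w : ℝ} {m N : ℕ} (h : Hyp P y ρ w m N) : P.card ≤ y := by
  have : P ⊆ Icc 1 y := fun p hp => mem_Icc.2 ⟨(h.prime p hp).pos, h.le p hp⟩
  have := card_le_card this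
  rwa [Nat.card_Icc, Nat.add_sub_cancel] at this

lemma Hyp.ry {P : Finset ℕ} {y : ℕ} {ρ w : ℝ} {m N : ℕ} (h : Hyp P y ρ w m N) : ρ * Nat.log 2 N ≤ y :=
  h.card.trans (by exact_mod_cast h.card_le)

lemma Hyp.r_le {P : Finset ℕ} {y : ℕ} {ρ w : ℝ} {m N : ℕ} (h : Hyp P y ρ w m N) : ρ ≤ y := by
  have h1 := h.ry
  have h2 : (1 : ℝ) ≤ (Nat.log 2 N : ℝ) := by exact_mod_cast Nat.log_pos (by norm_num) h.n2
  have h3 := h.r0
  nlinarith

lemma Hyp.w_le {P : Finset ℕ} {y : ℕ} {ρ w : ℝ} {m N : ℕ} (h : Hyp P y ρ w m N) : w ^ 2 ≤ ρ := by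
  have h1 := h.yw
  have h2 := h.r_le
  have h3 := h.r0
  have hy : (0 : ℝ) < y := by exact_mod_cast (by have := h.y4; omega : 0 < y)
  have h4 : (y : ℝ) * w ^ 2 ≤ y * ρ := by nlinarith
  exact le_of_mul_le_mul_left h4 hy

lemma Hyp.r4 {P : Finset ℕ} {y : ℕ} {ρ w : ℝ} {m N : ℕ} (h : Hyp P y ρ w m N) : 4 ≤ ρ := by
  have h1 := h.w_le
  have h2 := h.w2
  nlinarith

lemma Hyp.log_le {P : Finset ℕ} {y : ℕ} {ρ w : ℝ} {m N : ℕ} (h : Hyp P y ρ w m N) : 4 * Nat.log 2 N ≤ y := by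
  have h1 := h.ry
  have h2 := h.r4
  have h3 : (0 : ℝ) ≤ (Nat.log 2 N : ℝ) := Nat.cast_nonneg _
  have h4 : (4 : ℝ) * Nat.log 2 N ≤ y := by nlinarith
  exact_mod_cast h4

lemma SS_zero (P : Finset ℕ) : SS P 0 = ∅ := by
  ext n
  rw [mem_SS]
  constructor
  · intro hh
    exfalso
    omega
  · intro hh
    simp at hh

lemma ratio1 {P : Finset ℕ} {y : ℕ} {ρ w : ℝ} {m N : ℕ} (h : Hyp P y ρ w m N) {x : ℕ} (hx : x ≤ N) :
    ρ * (SS P (x / y)).card ≤ (SS P x).card := by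
  have hy := h.y4
  rcases Nat.lt_or_ge x y with h1 | h1
  · rw [Nat.div_eq_of_lt h1, SS_zero]
    simp
  · have h2 := ratio0 P y h.prime h.le x
    have h3 : Nat.log 2 x ≤ Nat.log 2 N := Nat.log_mono_right hx
    have h4 : 0 < Nat.log 2 N := Nat.log_pos (by norm_num) (by omega)
    have h4' : (0 : ℝ) < (Nat.log 2 N : ℝ) := by exact_mod_cast h4
    have h5 := h.card
    have h6 : (Nat.log 2 N : ℝ) * (ρ * (SS P (x / y)).card) ≤ (Nat.log 2 N : ℝ) * (SS P x).card := by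
      calc (Nat.log 2 N : ℝ) * (ρ * (SS P (x / y)).card) = (ρ * Nat.log 2 N) * (SS P (x / y)).card := by ring
        _ ≤ P.card * (SS P (x / y)).card := mul_le_mul_of_nonneg_right h5 (Nat.cast_nonneg _)
        _ ≤ (Nat.log 2 x : ℝ) * (SS P x).card := by exact_mod_cast h2
        _ ≤ _ := mul_le_mul_of_nonneg_right (by exact_mod_cast h3) (Nat.cast_nonneg _)
    exact le_of_mul_le_mul_left h6 h4'

lemma ratio {P : Finset ℕ} {y : ℕ} {ρ w : ℝ} {m N : ℕ} (h : Hyp P y ρ w m N) (j : ℕ) : ∀ {x : ℕ}, x ≤ N →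
    ρ ^ j * (SS P (x / y ^ j)).card ≤ (SS P x).card := by
  induction j with
  | zero => intro x _; simp
  | succ j ih =>
    intro x hx
    have h1 := ih (x := x) hx
    have h2 : x / y ^ j ≤ N := (Nat.div_le_self _ _).trans hx
    have h3 := ratio1 h h2
    rw [Nat.div_div_eq_div_mul, ← pow_succ] at h3
    calc ρ ^ (j + 1) * (SS P (x / y ^ (j + 1))).card = ρ ^ j * (ρ * (SS P (x / y ^ (j + 1))).card) := by ring
      _ ≤ ρ ^ j * (SS P (x / y ^ j)).card := mul_le_mul_of_nonneg_left h3 (pow_nonneg h.r0.le _)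
      _ ≤ _ := h1

/-- the ratio with integer exponents -/
lemma ratz {P : Finset ℕ} {y : ℕ} {ρ w : ℝ} {m N : ℕ} (h : Hyp P y ρ w m N) (x : ℕ) (j : ℤ) (hx : x ≤ N) (hj : (x : ℝ) * (y : ℝ) ^ j ≤ N) :
    ((SS P x).card : ℝ) ≤ ρ ^ (-j) * (SS P N).card := by
  have hρ := h.r0
  have hρ1 : 1 ≤ ρ := by have := h.r4; linarith
  have hyn : 0 < y := by have := h.y4; omega
  rcases le_or_gt j 0 with h0 | h0
  · have h1 : ((SS P x).card : ℝ) ≤ (SS P N).card := by exact_mod_cast card_le_card (SS_mono hx)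
    refine h1.trans ?_
    have h2 : 1 ≤ ρ ^ (-j) := one_le_zpow₀ hρ1 (by omega)
    exact le_mul_of_one_le_left (Nat.cast_nonneg _) h2
  · obtain ⟨n, hn⟩ : ∃ n : ℕ, j = n := ⟨j.toNat, by omega⟩
    rw [hn, zpow_natCast] at hj
    have h1 : x ≤ N / y ^ n := by
      rw [Nat.le_div_iff_mul_le (Nat.pow_pos hyn)]
      exact_mod_cast hj
    have h2 := ratio h n (le_refl N)
    have h3 : ((SS P x).card : ℝ) ≤ (SS P (N / y ^ n)).card := by exact_mod_cast card_le_card (SS_mono h1)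
    rw [hn, zpow_neg, zpow_natCast, inv_mul_eq_div, le_div_iff₀ (by positivity), mul_comm]
    exact (mul_le_mul_of_nonneg_left h3 (by positivity)).trans h2

/-- the lower bound -/
lemma low {P : Finset ℕ} {y : ℕ} {ρ w : ℝ} {m N : ℕ} (h : Hyp P y ρ w m N) (k : ℕ) (hk : y ^ k ≤ N) : ρ ^ k ≤ (SS P N).card := by
  have hyn : 0 < y := by have := h.y4; omega
  have h2 := ratio h k (le_refl N)
  have h3 : (1 : ℝ) ≤ (SS P (N / y ^ k)).card := by exact_mod_cast card_SS_pos P (Nat.div_pos hk (Nat.pow_pos hyn))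
  have h4 : 0 ≤ ρ ^ k := pow_nonneg h.r0.le _
  nlinarith

end Pool.Agent.N469.SQ
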