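import Pool.Agent.N469.SQ.Base

set_option autoImplicit false

/-! Counting integers composed of primes from `P` in residue classes and in short intervals. -/

namespace Pool.Agent.N469.SQ
open Finset
open Pool.Agent.N469.SM (SS mem_SS one_mem_SS SS_mono SS_sub pf_mul pf_dvd card_SS_le card_SS_pos ratio0 exists_div)

/-- elements of a short set with prescribed residue -/
lemma cls_card (S : Finset ℕ) (m q : ℕ) (hq : 1 ≤ q) (ℓ : ℝ) (hℓ : 0 ≤ ℓ) (h1 : ∀ e ∈ S, ∀ e' ∈ S, (e : ℝ) - e' ≤ ℓ)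
    (h2 : ∀ e ∈ S, ∀ e' ∈ S, (q : ℤ) ∣ ((e : ℤ) - e') * m) : (S.card : ℝ) ≤ ℓ * (Nat.gcd m q) / q + 1 := by
  rcases S.eq_empty_or_nonempty with h | h
  · subst h
    simp only [card_empty, Nat.cast_zero]
    positivity
  obtain ⟨a, ha⟩ : ∃ a, a = S.min' h := ⟨_, rfl⟩
  have haS : a ∈ S := by rw [ha]; exact min'_mem _ _
  have hmin : ∀ e ∈ S, a ≤ e := fun e he => by rw [ha]; exact min'_le _ _ he
  obtain ⟨g, hg⟩ : ∃ g, g = Nat.gcd m q := ⟨_, rfl⟩
  have hg0 : 0 < g := by rw [hg]; exact Nat.gcd_pos_of_pos_right _ hq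
  obtain ⟨q', hq'⟩ : g ∣ q := by rw [hg]; exact Nat.gcd_dvd_right _ _
  obtain ⟨m', hm'⟩ : g ∣ m := by rw [hg]; exact Nat.gcd_dvd_left _ _
  have hq0 : 0 < q' := by
    rcases Nat.eq_zero_or_pos q' with h0 | h0
    · rw [h0, mul_zero] at hq'; omega
    · exact h0
  have hcop : Nat.Coprime q' m' := by
    have h3 : Nat.Coprime (m / Nat.gcd m q) (q / Nat.gcd m q) := Nat.coprime_div_gcd_div_gcd (by rw [← hg]; exact hg0)
    rw [← hg] at h3
    have e1 : m / g = m' := by rw [hm']; exact Nat.mul_div_cancel_left _ hg0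
    have e2 : q / g = q' := by rw [hq']; exact Nat.mul_div_cancel_left _ hg0
    rw [e1, e2] at h3
    exact h3.symm
  have h3 : ∀ e ∈ S, ∀ e' ∈ S, (q' : ℤ) ∣ (e : ℤ) - e' := by
    intro e he e' he'
    have h4 := h2 e he e' he'
    rw [hq', hm'] at h4
    push_cast at h4
    have h5 : (g : ℤ) * q' ∣ (g : ℤ) * (((e : ℤ) - e') * m') := by
      convert h4 using 1
      ring
    have h6 : (q' : ℤ) ∣ ((e : ℤ) - e') * m' := (mul_dvd_mul_iff_left (by exact_mod_cast hg0.ne')).1 h5
    exact (Nat.Coprime.isCoprime hcop).dvd_of_dvd_mul_right h6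
  have h4 : S.card ≤ (range (⌊ℓ / q'⌋₊ + 1)).card := by
    apply card_le_card_of_injOn (fun e => (e - a) / q')
    · intro e he
      rw [mem_coe] at he
      rw [mem_coe, mem_range, Nat.lt_succ_iff]
      apply Nat.le_floor
      have h5 := hmin e he
      have h6 := h1 e he a haS
      calc (((e - a) / q' : ℕ) : ℝ) ≤ ((e - a : ℕ) : ℝ) / q' := Nat.cast_div_le
        _ ≤ ℓ / q' := by
          apply div_le_div_of_nonneg_right _ (Nat.cast_nonneg _)
          rw [Nat.cast_sub h5]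
          exact h6
    · intro e he e' he' heq
      rw [mem_coe] at he he'
      simp only at heq
      have h5 := hmin e he
      have h5' := hmin e' he'
      have h6 : (q' : ℤ) ∣ (e : ℤ) - a := h3 e he a haS
      have h6' : (q' : ℤ) ∣ (e' : ℤ) - a := h3 e' he' a haS
      have h7 : q' ∣ e - a := by
        have : ((e - a : ℕ) : ℤ) = (e : ℤ) - a := by omega
        rw [← this] at h6
        exact_mod_cast h6
      have h7' : q' ∣ e' - a := by
        have : ((e' - a : ℕ) : ℤ) = (e' : ℤ) - a := by omega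
        rw [← this] at h6'
        exact_mod_cast h6'
      have e1 := Nat.div_mul_cancel h7
      have e2 := Nat.div_mul_cancel h7'
      rw [heq] at e1
      omega
  rw [card_range] at h4
  have h5 : (S.card : ℝ) ≤ (⌊ℓ / q'⌋₊ : ℝ) + 1 := by exact_mod_cast h4
  have h6 : (⌊ℓ / q'⌋₊ : ℝ) ≤ ℓ / q' := Nat.floor_le (by positivity)
  have h7 : ℓ * (g : ℝ) / q = ℓ / q' := by
    have hgr : (g : ℝ) ≠ 0 := by exact_mod_cast hg0.ne'
    have hqr : (q' : ℝ) ≠ 0 := by exact_mod_cast hq0.ne'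
    rw [hq']
    push_cast
    field_simp
  rw [← hg, h7]
  linarith

/-- covering by divisors of a given size -/
lemma cover (P A : Finset ℕ) (x E y : ℕ) (hy : ∀ p ∈ P, p ≤ y) (hE : 1 ≤ E) (hA : A ⊆ SS P x) (hA' : ∀ n ∈ A, E < n) :
    A.card ≤ ∑ m ∈ SS P (x / E), ((Ioc E (E * y)).filter (fun e => e * m ∈ A)).card := by
  classical
  have h1 : ∀ n ∈ A, ∃ e, e ∣ n ∧ E < e ∧ e ≤ E * y := by
    intro n hn
    have h2 := mem_SS.1 (hA hn)
    exact exists_div E y hE n (hA' n hn) (fun q hq => hy q (h2.2 hq))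
  choose! e he using h1
  rw [← card_sigma]
  apply card_le_card_of_injOn (fun n => (⟨n / e n, e n⟩ : (_ : ℕ) × ℕ))
  · intro n hn
    rw [mem_coe] at hn
    obtain ⟨h1, h2, h3⟩ := he n hn
    have h4 := mem_SS.1 (hA hn)
    have h5 : n / e n ∣ n := Nat.div_dvd_of_dvd h1
    have h6 : e n * (n / e n) = n := Nat.mul_div_cancel' h1
    rw [mem_coe, mem_sigma, mem_SS, mem_filter, mem_Ioc]
    refine ⟨⟨⟨Nat.div_pos (Nat.le_of_dvd h4.1.1 h1) (by omega), ?_⟩, pf_dvd (by omega) h5 h4.2⟩, ⟨h2, h3⟩, ?_⟩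
    · calc n / e n ≤ x / e n := Nat.div_le_div_right h4.1.2
        _ ≤ x / E := Nat.div_le_div_left h2.le hE
    · rw [h6]
      exact hn
  · intro n hn n' hn' heq
    rw [mem_coe] at hn hn'
    simp only [Sigma.mk.injEq, heq_eq_eq] at heq
    obtain ⟨b1, b2⟩ := heq
    have c1 := Nat.div_mul_cancel (he n hn).1
    have c2 := Nat.div_mul_cancel (he n' hn').1
    rw [← c1, ← c2, b1, b2]

/-- integers composed of primes from `P`, in a residue class which is coprime to the modulus, in an interval -/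
lemma loc0 (P : Finset ℕ) (y : ℕ) (hy1 : 1 ≤ y) (hy : ∀ p ∈ P, p ≤ y) (q m₀ : ℕ) (hq : 1 ≤ q) (hcop : Nat.gcd m₀ q = 1) (T : ℝ) (hT : 0 ≤ T)
    (A : Finset ℕ) (hA : ∀ n ∈ A, 1 ≤ n ∧ n.primeFactors ⊆ P) (hc : ∀ n ∈ A, (q : ℤ) ∣ (n : ℤ) - m₀)
    (hAT : ∀ n ∈ A, |(n : ℝ) - m₀| ≤ T) : (A.card : ℝ) ≤ 9 + 9 * y * (SS P ⌊3 * T / q⌋₊).card := by
  have hq0 : (0 : ℝ) < q := by exact_mod_cast hq
  have hy0 : (1 : ℝ) ≤ y := by exact_mod_cast hy1
  have hcc : ∀ n ∈ A, ∀ n' ∈ A, (q : ℤ) ∣ (n : ℤ) - n' := by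
    intro n hn n' hn'
    have e1 : (n : ℤ) - n' = ((n : ℤ) - m₀) - ((n' : ℤ) - m₀) := by ring
    rw [e1]
    exact dvd_sub (hc n hn) (hc n' hn')
  have hgcd : ∀ n ∈ A, Nat.gcd n q = 1 := by
    intro n hn
    have h1 : Nat.gcd n q ∣ Nat.gcd m₀ q := by
      apply Nat.dvd_gcd _ (Nat.gcd_dvd_right _ _)
      have h2 : ((Nat.gcd n q : ℕ) : ℤ) ∣ (n : ℤ) - m₀ :=
        (by exact_mod_cast Nat.gcd_dvd_right n q : ((Nat.gcd n q : ℕ) : ℤ) ∣ (q : ℤ)).trans (hc n hn)
      have h3 : ((Nat.gcd n q : ℕ) : ℤ) ∣ (n : ℤ) := by exact_mod_cast Nat.gcd_dvd_left n q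
      have h4 := dvd_sub h3 h2
      rw [sub_sub_cancel] at h4
      exact_mod_cast h4
    rw [hcop] at h1
    exact Nat.dvd_one.1 h1
  have hcardnn : (0 : ℝ) ≤ 9 * y * (SS P ⌊3 * T / q⌋₊).card := by positivity
  rcases le_or_gt T (4 * q) with h4 | h4
  · -- short intervals
    have h1 := cls_card A 1 q hq (2 * T) (by positivity) (fun e he e' he' => by
        have a1 := abs_le.1 (hAT e he)
        have a2 := abs_le.1 (hAT e' he')
        linarith) (fun e he e' he' => by
        push_cast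
        rw [mul_one]
        exact hcc e he e' he')
    rw [Nat.gcd_one_left] at h1
    have h2 : 2 * T * ((1 : ℕ) : ℝ) / q ≤ 8 := by
      rw [div_le_iff₀ hq0]
      push_cast
      linarith
    linarith
  have hqr : (1 : ℝ) ≤ q := by exact_mod_cast hq
  have hTpos : 0 < T := by linarith
  -- counting the divisors
  have key : ∀ (x E : ℕ) (ℓ : ℝ), 1 ≤ E → 0 ≤ ℓ → (∀ n ∈ A, n ≤ x) → x / E ≤ ⌊3 * T / q⌋₊ → ℓ / q + 1 ≤ 9 * y →
      (∀ m e e' : ℕ, 1 ≤ m → e ≤ E * y → e * m ∈ A → e' * m ∈ A → (e : ℝ) - e' ≤ ℓ) →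
      ((A.filter (fun n => E < n)).card : ℝ) ≤ 9 * y * (SS P ⌊3 * T / q⌋₊).card := by
    intro x E ℓ hE hℓ hx hxE hℓ9 hl
    have h1 := cover P (A.filter (fun n => E < n)) x E y hy hE (by
      intro n hn
      rw [mem_filter] at hn
      have := hA n hn.1
      rw [mem_SS]
      exact ⟨⟨this.1, hx n hn.1⟩, this.2⟩) (fun n hn => (mem_filter.1 hn).2)
    have h2 : ((A.filter (fun n => E < n)).card : ℝ) ≤
        ∑ m ∈ SS P (x / E), (((Ioc E (E * y)).filter (fun e => e * m ∈ A.filter (fun n => E < n))).card : ℝ) := by exact_mod_cast h1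
    have h3 : ∀ m ∈ SS P (x / E), (((Ioc E (E * y)).filter (fun e => e * m ∈ A.filter (fun n => E < n))).card : ℝ) ≤ 9 * y := by
      intro m hm
      rw [mem_SS] at hm
      rcases ((Ioc E (E * y)).filter (fun e => e * m ∈ A.filter (fun n => E < n))).eq_empty_or_nonempty with h0 | ⟨e₀, he₀⟩
      · rw [h0, card_empty]
        push_cast
        positivity
      rw [mem_filter, mem_filter] at he₀
      have hg := hgcd _ he₀.2.1
      have hg2 : Nat.gcd m q = 1 := by
        have h5 : Nat.Coprime (e₀ * m) q := hg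
        exact (Nat.Coprime.coprime_mul_left h5)
      have h5 := cls_card ((Ioc E (E * y)).filter (fun e => e * m ∈ A.filter (fun n => E < n))) m q hq ℓ hℓ (fun e he e' he' => by
          rw [mem_filter, mem_Ioc, mem_filter] at he he'
          exact hl m e e' hm.1.1 he.1.2 he.2.1 he'.2.1) (fun e he e' he' => by
          rw [mem_filter, mem_filter] at he he'
          have h6 := hcc _ he.2.1 _ he'.2.1
          have e1 : ((e : ℤ) - e') * m = ((e * m : ℕ) : ℤ) - ((e' * m : ℕ) : ℤ) := by push_cast; ring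
          rw [e1]
          exact h6)
      rw [hg2] at h5
      refine h5.trans (le_trans (le_of_eq ?_) hℓ9)
      push_cast
      ring
    calc ((A.filter (fun n => E < n)).card : ℝ) ≤ ∑ _m ∈ SS P (x / E), (9 * y : ℝ) := h2.trans (sum_le_sum h3)
      _ = 9 * y * (SS P (x / E)).card := by rw [sum_const, nsmul_eq_mul]; ring
      _ ≤ _ := mul_le_mul_of_nonneg_left (by exact_mod_cast card_le_card (SS_mono hxE)) (by positivity)
  rcases le_or_gt (m₀ : ℝ) (2 * T) with hm | hm
  · -- small integers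
    have hx : ∀ n ∈ A, n ≤ ⌊3 * T⌋₊ := by
      intro n hn
      apply Nat.le_floor
      have := abs_le.1 (hAT n hn)
      linarith
    have h1 := key ⌊3 * T⌋₊ q (q * y) hq (by positivity) hx (by rw [Nat.floor_div_natCast]) (by
        rw [mul_div_assoc, mul_comm, div_mul_cancel₀ _ hq0.ne']
        linarith) (fun m e e' _ he _ _ => by
        have : (e : ℝ) ≤ q * y := by exact_mod_cast he
        have h6 : (0 : ℝ) ≤ e' := Nat.cast_nonneg _
        linarith)
    have h2 := cls_card (A.filter (fun n => ¬ q < n)) 1 q hq q hq0.le (fun e he e' _ => by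
        rw [mem_filter] at he
        have : (e : ℝ) ≤ q := by exact_mod_cast not_lt.1 he.2
        have h6 : (0 : ℝ) ≤ e' := Nat.cast_nonneg _
        linarith) (fun e he e' he' => by
        rw [mem_filter] at he he'
        push_cast
        rw [mul_one]
        exact hcc e he.1 e' he'.1)
    rw [Nat.gcd_one_left] at h2
    rw [Nat.cast_one, mul_one, div_self hq0.ne'] at h2
    rw [← card_filter_add_card_filter_not (s := A) (q < ·), Nat.cast_add]
    linarith
  · -- large integers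
    have hm0 : (0 : ℝ) < m₀ := by linarith
    obtain ⟨E, hE⟩ : ∃ E, E = ⌈(m₀ : ℝ) * q / T⌉₊ := ⟨_, rfl⟩
    have hr1 : 1 ≤ (m₀ : ℝ) * q / T := by
      rw [one_le_div hTpos]
      nlinarith
    have hE1 : (m₀ : ℝ) * q / T ≤ E := by rw [hE]; exact Nat.le_ceil _
    have hE2 : (E : ℝ) < (m₀ : ℝ) * q / T + 1 := by rw [hE]; exact Nat.ceil_lt_add_one (by linarith)
    have hE3 : (E : ℝ) ≤ 2 * ((m₀ : ℝ) * q / T) := by linarith
    have hEn : 1 ≤ E := by
      have : (1 : ℝ) ≤ E := hr1.trans hE1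
      exact_mod_cast this
    have hlow : ∀ n ∈ A, (m₀ : ℝ) / 2 < n := by
      intro n hn
      have := abs_le.1 (hAT n hn)
      linarith
    have hall : A.filter (fun n => E < n) = A := by
      rw [filter_true_of_mem]
      intro n hn
      have h1 := hlow n hn
      have h2 : (m₀ : ℝ) * q / T < m₀ / 4 := by
        rw [div_lt_div_iff₀ hTpos (by norm_num)]
        nlinarith
      have h3 : (8 : ℝ) < m₀ := by linarith
      have h4 : (E : ℝ) < n := by linarith
      exact_mod_cast h4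
    have h1 := key ⌊3 / 2 * (m₀ : ℝ)⌋₊ E (8 * q * y) hEn (by positivity) (fun n hn => by
        apply Nat.le_floor
        have := abs_le.1 (hAT n hn)
        linarith) (by
        rw [← Nat.floor_div_natCast]
        apply Nat.floor_le_floor
        have hE0 : (0 : ℝ) < E := by exact_mod_cast hEn
        rw [div_le_div_iff₀ hE0 hq0]
        have h5 := mul_le_mul_of_nonneg_right hE1 hTpos.le
        rw [div_mul_cancel₀ _ hTpos.ne'] at h5
        nlinarith) (by
        have : 8 * (q : ℝ) * y / q = 8 * y := by field_simp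
        rw [this]
        linarith) (fun m e e' hm1 he hem hem' => by
        have hmr : (1 : ℝ) ≤ m := by exact_mod_cast hm1
        have a1 := abs_le.1 (hAT _ hem)
        have a2 := abs_le.1 (hAT _ hem')
        have a3 := hlow _ hem
        push_cast at a1 a2 a3
        have he' : (e : ℝ) ≤ E * y := by exact_mod_cast he
        have b1 : ((e : ℝ) - e') * m ≤ 2 * T := by nlinarith
        have b2 : (m₀ : ℝ) / 2 < 2 * ((m₀ : ℝ) * q / T) * y * m := by
          calc (m₀ : ℝ) / 2 < e * m := a3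
            _ ≤ (E * y) * m := mul_le_mul_of_nonneg_right he' (by linarith)
            _ ≤ (2 * ((m₀ : ℝ) * q / T) * y) * m := by gcongr
            _ = _ := by ring
        have b3 : T < 4 * q * y * m := by
          have e1 : 2 * ((m₀ : ℝ) * q / T) * y * m = (m₀ / 2) * (4 * q * y * m / T) := by field_simp; ring
          rw [e1] at b2
          have b4 : 1 < 4 * q * y * m / T := by
            by_contra hcon
            push Not at hcon
            have : (m₀ : ℝ) / 2 * (4 * q * y * m / T) ≤ m₀ / 2 * 1 := mul_le_mul_of_nonneg_left hcon (by positivity)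
            linarith
          rwa [one_lt_div hTpos] at b4
        by_contra hcon
        push Not at hcon
        have b5 : 8 * (q : ℝ) * y * m < ((e : ℝ) - e') * m := mul_lt_mul_of_pos_right hcon (by linarith)
        linarith)
    rw [hall] at h1
    linarith

/-- integers composed of primes from `P`, in a residue class, in an interval -/
lemma loc (P : Finset ℕ) (y : ℕ) (hy1 : 1 ≤ y) (hy : ∀ p ∈ P, p ≤ y) (q m₀ : ℕ) (hq : 1 ≤ q) (T : ℝ) (hT : 0 ≤ T)
    (A : Finset ℕ) (hA : ∀ n ∈ A, 1 ≤ n ∧ n.primeFactors ⊆ P) (hc : ∀ n ∈ A, (q : ℤ) ∣ (n : ℤ) - m₀)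
    (hAT : ∀ n ∈ A, |(n : ℝ) - m₀| ≤ T) : (A.card : ℝ) ≤ 9 + 9 * y * (SS P ⌊3 * T / q⌋₊).card := by
  obtain ⟨h, hh⟩ : ∃ h, h = Nat.gcd m₀ q := ⟨_, rfl⟩
  have hh0 : 0 < h := by rw [hh]; exact Nat.gcd_pos_of_pos_right _ hq
  have hhr : (0 : ℝ) < h := by exact_mod_cast hh0
  obtain ⟨q', hq'⟩ : h ∣ q := by rw [hh]; exact Nat.gcd_dvd_right _ _
  obtain ⟨m₁, hm₁⟩ : h ∣ m₀ := by rw [hh]; exact Nat.gcd_dvd_left _ _
  have hq1 : 1 ≤ q' := by
    rcases Nat.eq_zero_or_pos q' with h0 | h0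
    · rw [h0, mul_zero] at hq'; omega
    · exact h0
  have hq0' : (0 : ℝ) < q' := by exact_mod_cast hq1
  have hcop : Nat.gcd m₁ q' = 1 := by
    have h3 : Nat.Coprime (m₀ / Nat.gcd m₀ q) (q / Nat.gcd m₀ q) := Nat.coprime_div_gcd_div_gcd (by rw [← hh]; exact hh0)
    rw [← hh] at h3
    have e1 : m₀ / h = m₁ := by rw [hm₁]; exact Nat.mul_div_cancel_left _ hh0
    have e2 : q / h = q' := by rw [hq']; exact Nat.mul_div_cancel_left _ hh0
    rw [e1, e2] at h3
    exact h3
  have hdvd : ∀ n ∈ A, h ∣ n := by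
    intro n hn
    have h1 : (h : ℤ) ∣ (n : ℤ) - m₀ := (Dvd.intro (q' : ℤ) (by rw [hq']; push_cast; ring)).trans (hc n hn)
    have h2 : (h : ℤ) ∣ (m₀ : ℤ) := Dvd.intro (m₁ : ℤ) (by rw [hm₁]; push_cast; ring)
    have h3 := dvd_add h1 h2
    rw [sub_add_cancel] at h3
    exact_mod_cast h3
  have hinj : ((A.image (fun n => n / h)).card : ℝ) = A.card := by
    rw [card_image_of_injOn]
    intro a ha b hb hab
    simp only at hab
    have c1 := Nat.div_mul_cancel (hdvd a ha)
    have c2 := Nat.div_mul_cancel (hdvd b hb)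
    rw [← c1, ← c2, hab]
  rw [← hinj]
  have h1 := loc0 P y hy1 hy q' m₁ hq1 hcop (T / h) (by positivity) (A.image (fun n => n / h)) (by
      intro k hk
      rw [mem_image] at hk
      obtain ⟨n, hn, rfl⟩ := hk
      have h2 := hA n hn
      exact ⟨Nat.div_pos (Nat.le_of_dvd h2.1 (hdvd n hn)) hh0, pf_dvd (by omega) (Nat.div_dvd_of_dvd (hdvd n hn)) h2.2⟩) (by
      intro k hk
      rw [mem_image] at hk
      obtain ⟨n, hn, rfl⟩ := hk
      obtain ⟨k, hk⟩ := hdvd n hn
      have e1 : n / h = k := by rw [hk]; exact Nat.mul_div_cancel_left _ hh0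
      rw [e1]
      have h2 := hc n hn
      rw [hk, hm₁, hq'] at h2
      push_cast at h2
      rw [← mul_sub] at h2
      exact (mul_dvd_mul_iff_left (by exact_mod_cast hh0.ne')).1 h2) (by
      intro k hk
      rw [mem_image] at hk
      obtain ⟨n, hn, rfl⟩ := hk
      obtain ⟨k, hk⟩ := hdvd n hn
      have e1 : n / h = k := by rw [hk]; exact Nat.mul_div_cancel_left _ hh0
      rw [e1, le_div_iff₀ hhr]
      have h2 := hAT n hn
      rw [hk, hm₁] at h2
      push_cast at h2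
      rw [← mul_sub, abs_mul, abs_of_pos hhr] at h2
      linarith)
  have e1 : 3 * (T / h) / q' = 3 * T / q := by
    rw [hq']
    push_cast
    field_simp
  rw [e1] at h1
  exact h1

end Pool.Agent.N469.SQ
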