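import Pool.Agent.N469.SQ.Ker

set_option autoImplicit false

/-! The exponential sum over the integers composed of primes from `P`. -/

namespace Pool.Agent.N469.SQ
open Finset
open Pool.Agent.H807R2.Dav
open Pool.Agent.N469.SM (SS mem_SS one_mem_SS SS_mono SS_sub pf_mul pf_dvd card_SS_le card_SS_pos bilin)

lemma num1 (y ρ w : ℝ) (a b : ℕ) (hy : 0 < y) (hρ : 0 < ρ) (hw : 0 < w) (h1 : y * w ^ 2 ≤ ρ ^ 2) (h2 : w ^ 2 ≤ ρ) (h3 : ρ ≤ y) :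
    y ^ a * ρ ^ (-(2 * a + b - 1) : ℤ) ≤ y / w ^ (2 * (a + b)) := by
  have e1 : ρ ^ (-(2 * a + b - 1) : ℤ) = ρ / (ρ ^ (2 * a) * ρ ^ b) := by
    rw [eq_div_iff (by positivity), ← zpow_natCast ρ (2 * a), ← zpow_natCast ρ b, ← zpow_add₀ hρ.ne', ← zpow_add₀ hρ.ne']
    have : (-(2 * (a : ℤ) + b - 1) + (((2 * a : ℕ) : ℤ) + (b : ℤ))) = 1 := by push_cast; ring
    rw [this, zpow_one]
  rw [e1, mul_div_assoc', div_le_div_iff₀ (by positivity) (by positivity)]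
  have e2 : (y * w ^ 2) ^ a ≤ ρ ^ (2 * a) := by
    rw [pow_mul]
    exact pow_le_pow_left₀ (by positivity) h1 a
  have e3 : (w ^ 2) ^ b ≤ ρ ^ b := pow_le_pow_left₀ (by positivity) h2 b
  calc y ^ a * ρ * w ^ (2 * (a + b)) = ((y * w ^ 2) ^ a * (w ^ 2) ^ b) * ρ := by rw [mul_pow]; ring
    _ ≤ (ρ ^ (2 * a) * ρ ^ b) * y := by gcongr
    _ = _ := by ring

lemma num2 (y ρ w : ℝ) (s i : ℕ) (hy : 0 < y) (hρ : 0 < ρ) (hw : 0 < w) (h1 : y * w ^ 2 ≤ ρ ^ 2) (h3 : ρ ≤ y) :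
    y ^ (s + 1) * y ^ (2 - i : ℤ) * ρ ^ (-(2 * s - 1 - i) : ℤ) ≤ y ^ 4 / w ^ (2 * s) := by
  have e1 : ρ ^ (-(2 * s - 1 - i) : ℤ) = ρ * ρ ^ i / ρ ^ (2 * s) := by
    rw [eq_div_iff (by positivity), ← zpow_natCast ρ (2 * s), ← zpow_natCast ρ i, ← zpow_add₀ hρ.ne', ← zpow_one_add₀ hρ.ne']
    congr 1
    push_cast
    ring
  have e0 : y ^ (2 - i : ℤ) = y ^ 2 / y ^ i := by
    rw [zpow_sub₀ hy.ne', zpow_natCast]
    norm_cast
  rw [e1, e0]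
  have e4 : y ^ (s + 1) * (y ^ 2 / y ^ i) * (ρ * ρ ^ i / ρ ^ (2 * s)) = (y ^ (s + 3) * (ρ * ρ ^ i)) / (y ^ i * ρ ^ (2 * s)) := by
    rw [show s + 3 = (s + 1) + 2 by ring, pow_add y (s + 1) 2]
    field_simp
  rw [e4, div_le_div_iff₀ (by positivity) (by positivity)]
  have e2 : (y * w ^ 2) ^ s ≤ ρ ^ (2 * s) := by
    rw [pow_mul]
    exact pow_le_pow_left₀ (by positivity) h1 s
  have e3 : ρ ^ i ≤ y ^ i := pow_le_pow_left₀ hρ.le h3 i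
  calc y ^ (s + 3) * (ρ * ρ ^ i) * w ^ (2 * s) = y ^ 3 * (ρ * ρ ^ i) * (y * w ^ 2) ^ s := by rw [mul_pow]; ring
    _ ≤ y ^ 3 * (y * y ^ i) * ρ ^ (2 * s) := by gcongr
    _ = _ := by ring

/-- the trivial upper bound for `y ^ s` -/
lemma num3 (y ρ w : ℝ) (s k : ℕ) (hy : 1 ≤ y) (hρ : 0 < ρ) (hw : 0 < w) (h1 : y * w ^ 2 ≤ ρ ^ 2) (hs : 2 * s ≤ k + 4) :
    y ^ s * w ^ k ≤ y ^ 2 * ρ ^ k := by
  have hy0 : 0 < y := by linarith
  have h2 : (y ^ s * w ^ k) ^ 2 ≤ (y ^ 2 * ρ ^ k) ^ 2 := by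
    calc (y ^ s * w ^ k) ^ 2 = y ^ (2 * s) * (w ^ 2) ^ k := by ring
      _ ≤ y ^ (k + 4) * (w ^ 2) ^ k := by
          apply mul_le_mul_of_nonneg_right _ (by positivity)
          exact pow_le_pow_right₀ hy hs
      _ = y ^ 4 * (y * w ^ 2) ^ k := by rw [mul_pow]; ring
      _ ≤ y ^ 4 * (ρ ^ 2) ^ k := by gcongr
      _ = _ := by ring
  exact le_of_sq_le_sq h2 (by positivity)

lemma ratf {P : Finset ℕ} {y : ℕ} {ρ w : ℝ} {m N : ℕ} (h : Hyp P y ρ w m N) (t : ℝ) (j : ℤ) (ht0 : 0 ≤ t) (htN : t ≤ N)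
    (hj : t * (y : ℝ) ^ j ≤ N) : ((SS P ⌊t⌋₊).card : ℝ) ≤ ρ ^ (-j) * (SS P N).card := by
  have h1 := Nat.floor_le ht0
  have hy0 : (0 : ℝ) < y := by exact_mod_cast (by have := h.y4; omega : 0 < y)
  apply ratz h
  · have h2 : ((⌊t⌋₊ : ℕ) : ℝ) ≤ (N : ℝ) := h1.trans htN
    exact_mod_cast h2
  · exact (mul_le_mul_of_nonneg_right h1 (by positivity)).trans hj

theorem exp_minor {P : Finset ℕ} {y : ℕ} {ρ w : ℝ} {m N : ℕ} (h : Hyp P y ρ w m N) {θ : ℝ} {q : ℕ} {c : ℤ} {a b : ℕ}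
    (hf : Fr y N θ q c a b) (k V : ℕ) (hk1 : y ^ k ≤ N) (hk : m * (14 + 2 * V) + 8 ≤ k) (hab : 2 * (a + b) ≤ k + 4)
    (hs : m * (14 + 2 * V) ≤ 2 * (a + b)) :
    ‖∑ n ∈ SS P N, ee ((n : ℝ) * θ)‖ ≤ (SS P N).card / (y : ℝ) ^ V := by
  have hy4 := h.y4
  have hy4r : (4 : ℝ) ≤ y := by exact_mod_cast hy4
  have hy1 : (1 : ℝ) ≤ y := by linarith
  have hy0 : (0 : ℝ) < y := by linarith
  have hyne : (y : ℝ) ≠ 0 := hy0.ne'
  have hyn : 0 < y := by omega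
  have hρ := h.r0
  have hρy := h.r_le
  have hw2 := h.w2
  have hw0 : 0 < w := by linarith
  have hw1 : 1 ≤ w := by linarith
  have hwρ := h.w_le
  have hyw := h.yw
  have hN1 : 1 ≤ N := (Nat.pow_pos hyn).trans_le hk1
  have hN0 : (0 : ℝ) < N := by exact_mod_cast hN1
  have hq1 := hf.q1
  have hq0 : (0 : ℝ) < q := by exact_mod_cast hq1
  obtain ⟨s, hsd⟩ : ∃ s, s = a + b := ⟨_, rfl⟩
  obtain ⟨D, hD⟩ : ∃ D, D = y ^ (s + 1) := ⟨_, rfl⟩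
  have hD1 : 1 ≤ D := by rw [hD]; exact Nat.pow_pos hyn
  have hD0 : (0 : ℝ) < D := by exact_mod_cast hD1
  have hDr : (D : ℝ) = (y : ℝ) ^ (s + 1) := by rw [hD]; push_cast; rfl
  have hDy : D * y ≤ N := by
    rw [hD, ← pow_succ]
    exact (Nat.pow_le_pow_right hyn (by omega)).trans hk1
  obtain ⟨S, hS⟩ : ∃ S : ℝ, S = (SS P N).card := ⟨_, rfl⟩
  have hS0 : 0 ≤ S := by rw [hS]; positivity
  have hbil := bilin P D N y (by omega) h.prime h.le hD1 hDy θ (fun m m' => kap y N D q b c m m')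
    (fun m m' => kap_nonneg hq1 _ _ _ _ _ _ _) (fun m m' B hm hm' hB => ker_le (by omega) hN1 hf (by rw [hD, hsd]) m m' B hm hm' hB) _
    (fun m _ => ker_sum (by omega) h.le hq1 hf.cop b m)
  rw [← hS] at hbil
  rw [← hS]
  -- the basic inequality
  have hbase : 3 * (y : ℝ) ^ (2 * a + b - 1 : ℤ) ≤ (D : ℝ) * q := by
    have e1 : (y : ℝ) ^ a ≤ q * y := by exact_mod_cast hf.aq
    have e2 : (y : ℝ) ^ (2 * a + b - 1 : ℤ) = (y : ℝ) ^ (a + b) * (y : ℝ) ^ a / y := by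
      rw [eq_div_iff hyne, ← pow_add, ← zpow_natCast, ← zpow_add_one₀ hyne]
      congr 1
      push_cast
      ring
    rw [e2, hDr, hsd]
    calc 3 * ((y : ℝ) ^ (a + b) * (y : ℝ) ^ a / y) ≤ y * ((y : ℝ) ^ (a + b) * (q * y) / y) := by gcongr; linarith
      _ = _ := by field_simp; ring
  have hDq : (3 : ℝ) ≤ D * q := by
    have e1 : (y : ℝ) ≤ D := by
      rw [hDr]
      exact le_self_pow₀ hy1 (by omega)
    have e2 : (1 : ℝ) ≤ q := by exact_mod_cast hq1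
    nlinarith
  -- the counting functions
  have hND : 0 ≤ (N : ℝ) / D := by positivity
  have hR1 : ((SS P ⌊3 * ((N : ℝ) / D) / q⌋₊).card : ℝ) ≤ ρ ^ (-(2 * a + b - 1) : ℤ) * S := by
    rw [hS]
    have hx : 0 ≤ 3 * ((N : ℝ) / D) / q := by positivity
    have e0 : 3 * ((N : ℝ) / D) / q = N * (3 / (D * q)) := by field_simp
    apply ratf h _ _ hx
    · rw [e0]
      apply mul_le_of_le_one_right hN0.le
      rw [div_le_one (by positivity)]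
      exact hDq
    · rw [e0]
      have e1 : (N : ℝ) * (3 / (D * q)) * (y : ℝ) ^ (2 * a + b - 1 : ℤ) = N * ((3 * (y : ℝ) ^ (2 * a + b - 1 : ℤ)) / (D * q)) := by ring
      rw [e1]
      apply mul_le_of_le_one_right hN0.le
      rw [div_le_one (by positivity)]
      exact hbase
  have hRi : ∀ i ∈ range (b + 1), ((SS P ⌊3 * (((N : ℝ) / D) * (y : ℝ) ^ (i - b : ℤ)) / q⌋₊).card : ℝ) ≤ ρ ^ (-(2 * s - 1 - i) : ℤ) * S := by
    intro i hi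
    rw [mem_range] at hi
    rw [hS]
    have hx : 0 ≤ 3 * (((N : ℝ) / D) * (y : ℝ) ^ (i - b : ℤ)) / q := by positivity
    have e0 : 3 * (((N : ℝ) / D) * (y : ℝ) ^ (i - b : ℤ)) / q = N * ((3 * (y : ℝ) ^ (i - b : ℤ)) / (D * q)) := by field_simp
    have e2 : (y : ℝ) ^ (i - b : ℤ) ≤ 1 := zpow_le_one_of_nonpos₀ hy1 (by omega)
    apply ratf h _ _ hx
    · rw [e0]
      apply mul_le_of_le_one_right hN0.le
      rw [div_le_one (by positivity)]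
      linarith
    · rw [e0]
      have e1 : (N : ℝ) * ((3 * (y : ℝ) ^ (i - b : ℤ)) / (D * q)) * (y : ℝ) ^ (2 * s - 1 - i : ℤ) = N * ((3 * (y : ℝ) ^ (2 * a + b - 1 : ℤ)) / (D * q)) := by
        have : (y : ℝ) ^ (2 * a + b - 1 : ℤ) = (y : ℝ) ^ (i - b : ℤ) * (y : ℝ) ^ (2 * s - 1 - i : ℤ) := by
          rw [← zpow_add₀ hyne]
          congr 1
          rw [hsd]
          push_cast
          ring
        rw [this]
        ring
      rw [e1]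
      apply mul_le_of_le_one_right hN0.le
      rw [div_le_one (by positivity)]
      exact hbase
  -- small quantities
  have hlog2 := h.log_le
  have hkl : k ≤ Nat.log 2 N := by
    apply Nat.le_log_of_pow_le (by norm_num)
    exact (Nat.pow_le_pow_left (by omega) k).trans hk1
  have hby : ((b + 1 : ℕ) : ℝ) ≤ y := by exact_mod_cast (by omega : b + 1 ≤ y)
  have hlogq : 1 + Real.log q ≤ y := by
    have e1 : q ≤ N := by
      calc q ≤ y ^ a := hf.qa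
        _ ≤ y ^ k := Nat.pow_le_pow_right hyn (by omega)
        _ ≤ N := hk1
    have e2 : Real.log q ≤ Real.log N := Real.log_le_log hq0 (by exact_mod_cast e1)
    have e3 : Real.log N ≤ ((Nat.log 2 N : ℝ) + 1) * Real.log 2 := by
      have h3 : N < 2 ^ (Nat.log 2 N + 1) := Nat.lt_pow_succ_log_self (by norm_num) N
      have h4 : (N : ℝ) ≤ (2 : ℝ) ^ (Nat.log 2 N + 1) := by exact_mod_cast h3.le
      have h5 := Real.log_le_log hN0 h4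
      rw [Real.log_pow] at h5
      push_cast at h5
      exact h5
    have e4 : (4 : ℝ) * (Nat.log 2 N : ℝ) ≤ y := by exact_mod_cast hlog2
    have e5 := Real.log_two_lt_d9
    have e6 : (0 : ℝ) ≤ (Nat.log 2 N : ℝ) := Nat.cast_nonneg _
    have e7 : ((Nat.log 2 N : ℝ) + 1) * Real.log 2 ≤ ((Nat.log 2 N : ℝ) + 1) * 1 := by
      apply mul_le_mul_of_nonneg_left _ (by positivity)
      linarith
    linarith
  have hlogq0 : 0 ≤ 1 + Real.log q := by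
    have := Real.log_natCast_nonneg q
    linarith
  obtain ⟨lam, hlam⟩ : ∃ lam : ℝ, lam = 1 / w ^ (2 * s) := ⟨_, rfl⟩
  have hlam0 : 0 ≤ lam := by rw [hlam]; positivity
  have hqa : (q : ℝ) ≤ (y : ℝ) ^ a := by exact_mod_cast hf.qa
  have hqR : (q : ℝ) * (SS P ⌊3 * ((N : ℝ) / D) / q⌋₊).card ≤ y * lam * S := by
    calc (q : ℝ) * (SS P ⌊3 * ((N : ℝ) / D) / q⌋₊).card ≤ (y : ℝ) ^ a * (ρ ^ (-(2 * a + b - 1) : ℤ) * S) := by gcongr
      _ = ((y : ℝ) ^ a * ρ ^ (-(2 * a + b - 1) : ℤ)) * S := by ring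
      _ ≤ (y / w ^ (2 * (a + b))) * S := mul_le_mul_of_nonneg_right (num1 y ρ w a b hy0 hρ hw0 hyw hwρ hρy) hS0
      _ = _ := by rw [hlam, hsd]; ring
  have hT1 : (9 + 9 * y * ((SS P ⌊3 * ((N : ℝ) / D) / q⌋₊).card : ℝ)) * (2 * q * (1 + Real.log q)) ≤
      18 * (y : ℝ) ^ (s + 1) + 18 * (y : ℝ) ^ 3 * lam * S := by
    have e1 : (q : ℝ) ≤ (y : ℝ) ^ s := hqa.trans (pow_le_pow_right₀ hy1 (by omega))
    calc (9 + 9 * y * ((SS P ⌊3 * ((N : ℝ) / D) / q⌋₊).card : ℝ)) * (2 * q * (1 + Real.log q)) =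
        (18 * q + 18 * y * (q * (SS P ⌊3 * ((N : ℝ) / D) / q⌋₊).card)) * (1 + Real.log q) := by ring
      _ ≤ (18 * (y : ℝ) ^ s + 18 * y * (y * lam * S)) * y := by gcongr
      _ = _ := by ring
  have hT2 : ∑ i ∈ range (b + 1), (D : ℝ) * (y : ℝ) ^ (2 - i : ℤ) * (9 + 9 * y * ((SS P ⌊3 * (((N : ℝ) / D) * (y : ℝ) ^ (i - b : ℤ)) / q⌋₊).card : ℝ)) ≤
      9 * (y : ℝ) ^ (s + 4) + 9 * (y : ℝ) ^ 6 * lam * S := by
    have e1 : ∀ i ∈ range (b + 1), (D : ℝ) * (y : ℝ) ^ (2 - i : ℤ) * (9 + 9 * y * ((SS P ⌊3 * (((N : ℝ) / D) * (y : ℝ) ^ (i - b : ℤ)) / q⌋₊).card : ℝ)) ≤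
        9 * (y : ℝ) ^ (s + 3) + 9 * (y : ℝ) ^ 5 * lam * S := by
      intro i hi
      have e2 : (D : ℝ) * (y : ℝ) ^ (2 - i : ℤ) ≤ (y : ℝ) ^ (s + 3) := by
        rw [hDr, show s + 3 = (s + 1) + 2 by ring, pow_add _ (s + 1) 2]
        apply mul_le_mul_of_nonneg_left _ (by positivity)
        have : (y : ℝ) ^ (2 - i : ℤ) ≤ (y : ℝ) ^ (2 : ℤ) := zpow_le_zpow_right₀ hy1 (by omega)
        exact_mod_cast this
      have e3 : (D : ℝ) * (y : ℝ) ^ (2 - i : ℤ) * ((SS P ⌊3 * (((N : ℝ) / D) * (y : ℝ) ^ (i - b : ℤ)) / q⌋₊).card : ℝ) ≤ (y : ℝ) ^ 4 * lam * S := by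
        calc (D : ℝ) * (y : ℝ) ^ (2 - i : ℤ) * ((SS P ⌊3 * (((N : ℝ) / D) * (y : ℝ) ^ (i - b : ℤ)) / q⌋₊).card : ℝ) ≤
            (D : ℝ) * (y : ℝ) ^ (2 - i : ℤ) * (ρ ^ (-(2 * s - 1 - i) : ℤ) * S) := mul_le_mul_of_nonneg_left (hRi i hi) (by positivity)
          _ = ((y : ℝ) ^ (s + 1) * (y : ℝ) ^ (2 - i : ℤ) * ρ ^ (-(2 * s - 1 - i) : ℤ)) * S := by rw [hDr]; ring
          _ ≤ ((y : ℝ) ^ 4 / w ^ (2 * s)) * S := mul_le_mul_of_nonneg_right (num2 y ρ w s i hy0 hρ hw0 hyw hρy) hS0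
          _ = _ := by rw [hlam]; ring
      calc (D : ℝ) * (y : ℝ) ^ (2 - i : ℤ) * (9 + 9 * y * ((SS P ⌊3 * (((N : ℝ) / D) * (y : ℝ) ^ (i - b : ℤ)) / q⌋₊).card : ℝ)) =
          9 * ((D : ℝ) * (y : ℝ) ^ (2 - i : ℤ)) + 9 * y * ((D : ℝ) * (y : ℝ) ^ (2 - i : ℤ) * ((SS P ⌊3 * (((N : ℝ) / D) * (y : ℝ) ^ (i - b : ℤ)) / q⌋₊).card : ℝ)) := by ring
        _ ≤ 9 * (y : ℝ) ^ (s + 3) + 9 * y * ((y : ℝ) ^ 4 * lam * S) := by gcongr
        _ = _ := by ring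
    refine (sum_le_card_nsmul _ _ _ e1).trans ?_
    rw [card_range, nsmul_eq_mul]
    calc ((b + 1 : ℕ) : ℝ) * (9 * (y : ℝ) ^ (s + 3) + 9 * (y : ℝ) ^ 5 * lam * S) ≤ y * (9 * (y : ℝ) ^ (s + 3) + 9 * (y : ℝ) ^ 5 * lam * S) :=
          mul_le_mul_of_nonneg_right hby (by positivity)
      _ = _ := by ring
  obtain ⟨W, hW⟩ : ∃ W : ℝ, W = (9 + 9 * y * ((SS P ⌊3 * ((N : ℝ) / D) / q⌋₊).card : ℝ)) * (2 * q * (1 + Real.log q)) +
      ∑ i ∈ range (b + 1), (D : ℝ) * (y : ℝ) ^ (2 - i : ℤ) * (9 + 9 * y * ((SS P ⌊3 * (((N : ℝ) / D) * (y : ℝ) ^ (i - b : ℤ)) / q⌋₊).card : ℝ)) := ⟨_, rfl⟩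
  rw [← hW] at hbil
  have hW2 : W ≤ 27 * (y : ℝ) ^ (s + 4) + 27 * (y : ℝ) ^ 6 * lam * S := by
    have e1 : (y : ℝ) ^ (s + 1) ≤ (y : ℝ) ^ (s + 4) := pow_le_pow_right₀ hy1 (by omega)
    have e2 : (y : ℝ) ^ 3 * (lam * S) ≤ (y : ℝ) ^ 6 * (lam * S) :=
      mul_le_mul_of_nonneg_right (pow_le_pow_right₀ hy1 (by omega)) (by positivity)
    rw [hW]
    linarith
  -- the target
  have hSk : ρ ^ k ≤ S := by rw [hS]; exact low h k hk1
  have hysS : (y : ℝ) ^ s ≤ (y : ℝ) ^ 2 / w ^ k * S := by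
    have e1 := num3 y ρ w s k hy1 hρ hw0 hyw (by omega)
    rw [div_mul_eq_mul_div, le_div_iff₀ (by positivity)]
    exact e1.trans (mul_le_mul_of_nonneg_left hSk (by positivity))
  have hZ : ∀ e : ℕ, m * (14 + 2 * V) ≤ e → (y : ℝ) ^ (14 + 2 * V) ≤ w ^ e := by
    intro e he
    calc (y : ℝ) ^ (14 + 2 * V) ≤ (w ^ m) ^ (14 + 2 * V) := pow_le_pow_left₀ hy0.le h.wm _
      _ = w ^ (m * (14 + 2 * V)) := by rw [← pow_mul]
      _ ≤ w ^ e := pow_le_pow_right₀ hw1 he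
  have hZk := hZ k (by omega)
  have hZs := hZ (2 * s) (by omega)
  have hlam2 : (y : ℝ) ^ 10 * lam ≤ 1 / 256 * (1 / (y : ℝ) ^ V) ^ 2 := by
    rw [hlam]
    have e1 : (256 : ℝ) * (y : ℝ) ^ (10 + 2 * V) ≤ (y : ℝ) ^ (14 + 2 * V) := by
      have : (256 : ℝ) ≤ (y : ℝ) ^ 4 := by
        calc (256 : ℝ) = 4 ^ 4 := by norm_num
          _ ≤ _ := pow_le_pow_left₀ (by norm_num) hy4r 4
      calc (256 : ℝ) * (y : ℝ) ^ (10 + 2 * V) ≤ (y : ℝ) ^ 4 * (y : ℝ) ^ (10 + 2 * V) := mul_le_mul_of_nonneg_right this (by positivity)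
        _ = _ := by rw [← pow_add]; congr 1; ring
    have e2 : 1 / 256 * (1 / (y : ℝ) ^ V) ^ 2 = 1 / (256 * (y : ℝ) ^ (2 * V)) := by rw [mul_comm 2 V, pow_mul]; field_simp
    rw [e2, mul_one_div, div_le_div_iff₀ (by positivity) (by positivity)]
    calc (y : ℝ) ^ 10 * (256 * (y : ℝ) ^ (2 * V)) = 256 * (y : ℝ) ^ (10 + 2 * V) := by rw [pow_add]; ring
      _ ≤ 1 * w ^ (2 * s) := by rw [one_mul]; exact e1.trans hZs
  have hk2' : (y : ℝ) ^ 10 / w ^ k ≤ 1 / 256 * (1 / (y : ℝ) ^ V) ^ 2 := by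
    have e1 : (256 : ℝ) * (y : ℝ) ^ (10 + 2 * V) ≤ (y : ℝ) ^ (14 + 2 * V) := by
      have : (256 : ℝ) ≤ (y : ℝ) ^ 4 := by
        calc (256 : ℝ) = 4 ^ 4 := by norm_num
          _ ≤ _ := pow_le_pow_left₀ (by norm_num) hy4r 4
      calc (256 : ℝ) * (y : ℝ) ^ (10 + 2 * V) ≤ (y : ℝ) ^ 4 * (y : ℝ) ^ (10 + 2 * V) := mul_le_mul_of_nonneg_right this (by positivity)
        _ = _ := by rw [← pow_add]; congr 1; ring
    have e2 : 1 / 256 * (1 / (y : ℝ) ^ V) ^ 2 = 1 / (256 * (y : ℝ) ^ (2 * V)) := by rw [mul_comm 2 V, pow_mul]; field_simp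
    rw [e2, div_le_div_iff₀ (by positivity) (by positivity)]
    calc (y : ℝ) ^ 10 * (256 * (y : ℝ) ^ (2 * V)) = 256 * (y : ℝ) ^ (10 + 2 * V) := by rw [pow_add]; ring
      _ ≤ 1 * w ^ k := by rw [one_mul]; exact e1.trans hZk
  have hWS : (y : ℝ) ^ 4 * (S * W) ≤ (S / (y : ℝ) ^ V / 2) ^ 2 := by
    calc (y : ℝ) ^ 4 * (S * W) ≤ (y : ℝ) ^ 4 * (S * (27 * (y : ℝ) ^ (s + 4) + 27 * (y : ℝ) ^ 6 * lam * S)) := by gcongr
      _ = 27 * S * (y : ℝ) ^ 8 * (y : ℝ) ^ s + 27 * ((y : ℝ) ^ 10 * lam) * S ^ 2 := by ring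
      _ ≤ 27 * S * (y : ℝ) ^ 8 * ((y : ℝ) ^ 2 / w ^ k * S) + 27 * ((y : ℝ) ^ 10 * lam) * S ^ 2 := by gcongr
      _ = 27 * ((y : ℝ) ^ 10 / w ^ k) * S ^ 2 + 27 * ((y : ℝ) ^ 10 * lam) * S ^ 2 := by ring
      _ ≤ 27 * (1 / 256 * (1 / (y : ℝ) ^ V) ^ 2) * S ^ 2 + 27 * (1 / 256 * (1 / (y : ℝ) ^ V) ^ 2) * S ^ 2 := by gcongr
      _ = (54 / 256) * ((1 / (y : ℝ) ^ V) ^ 2 * S ^ 2) := by ring
      _ ≤ (1 / 4) * ((1 / (y : ℝ) ^ V) ^ 2 * S ^ 2) := mul_le_mul_of_nonneg_right (by norm_num) (by positivity)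
      _ = _ := by ring
  have hsq : (y : ℝ) ^ 2 * √(S * W) ≤ S / (y : ℝ) ^ V / 2 := by
    have e1 : (y : ℝ) ^ 2 * √(S * W) = √((y : ℝ) ^ 4 * (S * W)) := by
      rw [show (y : ℝ) ^ 4 = ((y : ℝ) ^ 2) ^ 2 by ring, Real.sqrt_mul (sq_nonneg _) (S * W), Real.sqrt_sq (by positivity)]
    rw [e1, Real.sqrt_le_left (by positivity)]
    exact hWS
  have hD2 : ((SS P D).card : ℝ) ≤ S / (y : ℝ) ^ V / 2 := by
    have e1 : ((SS P D).card : ℝ) ≤ (y : ℝ) ^ (s + 1) := by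
      rw [← hDr]
      exact_mod_cast card_SS_le P D
    have e2 : (1 : ℝ) ≤ (y : ℝ) ^ V := one_le_pow₀ hy1
    have e3 : (y : ℝ) ^ 3 / w ^ k ≤ 1 / (y : ℝ) ^ V / 2 := by
      rw [div_div, div_le_div_iff₀ (by positivity) (by positivity), one_mul]
      refine le_trans ?_ hZk
      calc (y : ℝ) ^ 3 * ((y : ℝ) ^ V * 2) ≤ (y : ℝ) ^ 3 * ((y : ℝ) ^ V * y) := by gcongr; linarith
        _ = (y : ℝ) ^ (4 + V) := by ring
        _ ≤ _ := pow_le_pow_right₀ hy1 (by omega)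
    calc ((SS P D).card : ℝ) ≤ (y : ℝ) ^ (s + 1) := e1
      _ = y * (y : ℝ) ^ s := by ring
      _ ≤ y * ((y : ℝ) ^ 2 / w ^ k * S) := by gcongr
      _ = ((y : ℝ) ^ 3 / w ^ k) * S := by ring
      _ ≤ (1 / (y : ℝ) ^ V / 2) * S := mul_le_mul_of_nonneg_right e3 hS0
      _ = _ := by ring
  refine hbil.trans ?_
  linarith

/-- approximation of a frequency -/
lemma fr_ex {y N : ℕ} (hy : 2 ≤ y) (k : ℕ) (hN1 : 1 ≤ N) (hk2 : N < y ^ (k + 1)) (θ : ℝ) :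
    ∃ (q : ℕ) (c : ℤ) (a b : ℕ), Fr y N θ q c a b ∧ 2 * (a + b) ≤ k + 4 := by
  have hy2 : (2 : ℝ) ≤ y := by exact_mod_cast hy
  have hy1 : (1 : ℝ) ≤ y := by linarith
  have hy0 : (0 : ℝ) < y := by linarith
  have hyn : 0 < y := by omega
  have hn0 : 0 < Nat.sqrt N := Nat.sqrt_pos.2 hN1
  obtain ⟨r, hr1, hr2⟩ := Real.exists_rat_abs_sub_le_and_den_le θ hn0
  obtain ⟨n, hn⟩ : ∃ n, n = Nat.sqrt N := ⟨_, rfl⟩
  rw [← hn] at hr1 hr2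
  have hn1 : n * n ≤ N := by rw [hn]; exact Nat.sqrt_le N
  have hn2 : N < (n + 1) * (n + 1) := by rw [hn]; exact Nat.lt_succ_sqrt N
  obtain ⟨q, hq⟩ : ∃ q, q = r.den := ⟨_, rfl⟩
  have hq1 : 1 ≤ q := by rw [hq]; exact r.den_pos
  have hq0 : (0 : ℝ) < q := by exact_mod_cast hq1
  have hN0 : (0 : ℝ) < N := by exact_mod_cast hN1
  have hqn : q ≤ n := by rw [hq]; exact hr2
  have hqq : q * q ≤ N := (Nat.mul_le_mul hqn hqn).trans hn1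
  have hrr : ((r : ℚ) : ℝ) = (r.num : ℝ) / q := by
    rw [hq]
    exact_mod_cast (Rat.num_div_den r).symm
  rw [hrr, ← hq] at hr1
  obtain ⟨B, hB⟩ : ∃ B : ℝ, B = |θ - (r.num : ℝ) / q| * N := ⟨_, rfl⟩
  have hB0 : 0 ≤ B := by rw [hB]; positivity
  have hn10 : (0 : ℝ) < (n : ℝ) + 1 := by positivity
  have hBq : (B * q) ^ 2 ≤ N := by
    have h1 : B * q ≤ N / ((n : ℝ) + 1) := by
      rw [hB]
      have h2 := mul_le_mul_of_nonneg_right hr1 (by positivity : (0 : ℝ) ≤ N * q)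
      calc |θ - (r.num : ℝ) / q| * N * q = |θ - (r.num : ℝ) / q| * (N * q) := by ring
        _ ≤ 1 / (((n : ℝ) + 1) * q) * (N * q) := h2
        _ = N / ((n : ℝ) + 1) := by field_simp
    have h2 : (N : ℝ) < ((n : ℝ) + 1) * (n + 1) := by exact_mod_cast hn2
    calc (B * q) ^ 2 ≤ (N / ((n : ℝ) + 1)) ^ 2 := pow_le_pow_left₀ (by positivity) h1 2
      _ = N * (N / (((n : ℝ) + 1) * (n + 1))) := by field_simp
      _ ≤ N * 1 := by
          apply mul_le_mul_of_nonneg_left _ hN0.le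
          rw [div_le_one (by positivity)]
          exact h2.le
      _ = N := mul_one _
  have hN2 : (N : ℝ) < (y : ℝ) ^ (k + 1) := by exact_mod_cast hk2
  -- the scale of q
  obtain ⟨a, ha⟩ : ∃ a, a = Nat.clog y q := ⟨_, rfl⟩
  have ha1 : q ≤ y ^ a := by
    rw [ha]
    exact Nat.le_pow_clog (by omega) q
  have ha2 : y ^ a ≤ q * y := by
    rcases Nat.eq_zero_or_pos a with h | h
    · rw [h]
      calc y ^ 0 = 1 := by simp
        _ ≤ q * y := Nat.mul_pos hq1 hyn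
    · have h2 : y ^ (a - 1) < q := by
        by_contra hcon
        push Not at hcon
        have h3 : Nat.clog y q ≤ a - 1 := (Nat.clog_le_iff_le_pow (by omega)).2 hcon
        omega
      calc y ^ a = y ^ (a - 1) * y := by rw [← pow_succ]; congr 1; omega
        _ ≤ _ := Nat.mul_le_mul_right _ h2.le
  have ha2' : (y : ℝ) ^ a ≤ q * y := by exact_mod_cast ha2
  -- the scale of B
  have hex : ∃ b, B ≤ (y : ℝ) ^ b := by
    obtain ⟨b, hb⟩ := pow_unbounded_of_one_lt B (by linarith : (1 : ℝ) < y)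
    exact ⟨b, hb.le⟩
  classical
  obtain ⟨b, hb⟩ : ∃ b, b = Nat.find hex := ⟨_, rfl⟩
  have hb1 : B ≤ (y : ℝ) ^ b := by rw [hb]; exact Nat.find_spec hex
  have hb2 : b = 0 ∨ (y : ℝ) ^ b ≤ B * y := by
    rcases Nat.eq_zero_or_pos b with h | h
    · exact Or.inl h
    · right
      have h2 : ¬ B ≤ (y : ℝ) ^ (b - 1) := Nat.find_min hex (by omega)
      push Not at h2
      calc (y : ℝ) ^ b = (y : ℝ) ^ (b - 1) * y := by rw [← pow_succ]; congr 1; omega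
        _ ≤ _ := mul_le_mul_of_nonneg_right h2.le (by positivity)
  refine ⟨q, r.num, a, b, ⟨hq1, ?_, ha1, ha2, by rw [← hB]; exact hb1, by rw [← hB]; exact hb2⟩, ?_⟩
  · have := r.reduced
    rw [← hq] at this
    rw [Int.isCoprime_iff_gcd_eq_one]
    exact this
  · rcases hb2 with h | h
    · subst h
      have h1 : (y : ℝ) ^ (a * 2) < (y : ℝ) ^ (k + 3) := by
        calc (y : ℝ) ^ (a * 2) = ((y : ℝ) ^ a) ^ 2 := by rw [pow_mul]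
          _ ≤ (q * y) ^ 2 := pow_le_pow_left₀ (by positivity) ha2' 2
          _ = (q * q) * (y : ℝ) ^ 2 := by ring
          _ ≤ N * (y : ℝ) ^ 2 := mul_le_mul_of_nonneg_right (by exact_mod_cast hqq) (by positivity)
          _ < (y : ℝ) ^ (k + 1) * (y : ℝ) ^ 2 := mul_lt_mul_of_pos_right hN2 (by positivity)
          _ = _ := by rw [← pow_add]
      have h2 := (pow_lt_pow_iff_right₀ (by linarith : (1 : ℝ) < y)).1 h1
      omega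
    · have h1 : (y : ℝ) ^ ((b + a) * 2) < (y : ℝ) ^ (k + 5) := by
        calc (y : ℝ) ^ ((b + a) * 2) = ((y : ℝ) ^ b * (y : ℝ) ^ a) ^ 2 := by rw [← pow_add, ← pow_mul]
          _ ≤ ((B * y) * (q * y)) ^ 2 := by gcongr
          _ = (B * q) ^ 2 * (y : ℝ) ^ 4 := by ring
          _ ≤ N * (y : ℝ) ^ 4 := mul_le_mul_of_nonneg_right hBq (by positivity)
          _ < (y : ℝ) ^ (k + 1) * (y : ℝ) ^ 4 := mul_lt_mul_of_pos_right hN2 (by positivity)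
          _ = _ := by rw [← pow_add]
      have h2 := (pow_lt_pow_iff_right₀ (by linarith : (1 : ℝ) < y)).1 h1
      omega

/-- the exponential sum is small unless the frequency is close to a rational with a small denominator -/
theorem exp_alt {P : Finset ℕ} {y : ℕ} {ρ w : ℝ} {m N : ℕ} (h : Hyp P y ρ w m N) (k V : ℕ) (hk1 : y ^ k ≤ N) (hk2 : N < y ^ (k + 1))
    (hk : m * (14 + 2 * V) + 8 ≤ k) (θ : ℝ) :
    ‖∑ n ∈ SS P N, ee ((n : ℝ) * θ)‖ ≤ (SS P N).card / (y : ℝ) ^ V ∨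
      ∃ (q : ℕ) (c : ℤ), 1 ≤ q ∧ q ≤ y ^ (m * (14 + 2 * V)) ∧ |θ - c / q| * N ≤ (y : ℝ) ^ (m * (14 + 2 * V)) := by
  have hy := h.y4
  have hy1 : (1 : ℝ) ≤ y := by exact_mod_cast (by omega : 1 ≤ y)
  have hN1 : 1 ≤ N := (Nat.pow_pos (by omega)).trans_le hk1
  obtain ⟨q, c, a, b, hf, hab⟩ := fr_ex (by omega : 2 ≤ y) k hN1 hk2 θ
  rcases Nat.lt_or_ge (2 * (a + b)) (m * (14 + 2 * V)) with h1 | h1
  · right
    refine ⟨q, c, hf.q1, hf.qa.trans (Nat.pow_le_pow_right (by omega) (by omega)), hf.beta.trans (pow_le_pow_right₀ hy1 (by omega))⟩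
  · left
    exact exp_minor h hf k V hk1 hk hab h1

end Pool.Agent.N469.SQ
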