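import Pool.Agent.N469.SQ.Gold

set_option autoImplicit false

/-! Goldbach's conjecture for almost all the integers composed of primes from `P`. -/

namespace Pool.Agent.N469.SQ
open Finset
open Pool.Agent.H373R2.T7
open Pool.Agent.N469.SM (SS mem_SS one_mem_SS SS_mono card_SS_le card_SS_pos FL)

open Classical in
theorem gold_law (δ : ℝ) (hδ : 0 < δ) (B K U : ℕ) (κ : ℤ) (hκ : κ ≠ 0) (ε : ℝ) (hε : 0 < ε) : ∃ N₀ : ℕ, ∀ N, N₀ ≤ N →
    ∀ (Ω : Finset ℕ) (p : ℕ → ℝ), Sm δ B K N Ω p → ∀ cc : ℤ, |cc| ≤ B * N →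
      ∑ v ∈ Ω, (if 0 < cc + κ * v ∧ Even (cc + κ * v) ∧
        ¬ (|(Pool.Agent.H560R3.GB.g (cc + κ * v).toNat : ℝ) - Pool.Agent.H560R3.GB.HL (cc + κ * v).toNat| ≤
          ε * Pool.Agent.H560R3.GB.HL (cc + κ * v).toNat ∧
        ∃ p q : ℕ, p.Prime ∧ q.Prime ∧ p ≠ q ∧ p + q = (cc + κ * v).toNat) then p v else 0) ≤ 1 / Real.log N ^ U := by
  obtain ⟨A, hA⟩ : ∃ A, A = B + κ.natAbs + 1 := ⟨_, rfl⟩
  obtain ⟨W, N1, h1⟩ := sm_anti δ hδ B K A (U + 1) (by omega)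
  obtain ⟨C, N2, h2⟩ := sm_FLz δ hδ B K A (U + (2 * W + 6) + 1 + 6) κ (by omega) hκ
  obtain ⟨X₀, h3⟩ := fl_gold U W C ε hε
  refine ⟨X₀ + N1 + N2 + 3, fun N hN Ω p hL cc hcc => ?_⟩
  obtain ⟨g1, g2, g3⟩ := h2 N (by omega) Ω p hL cc
  obtain ⟨X, hX⟩ : ∃ X, X = A * N := ⟨_, rfl⟩
  have hanti := h1 N (by omega) Ω p hL (fun v => |((cc + κ * v : ℤ) : ℝ)| < (X : ℝ) / Real.log X ^ (W + 1))
  rw [← hX] at g1 g3 hanti
  have hNX : N ≤ X := by rw [hX]; exact Nat.le_mul_of_pos_left _ (by omega)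
  have hX0 : (0 : ℝ) < X := by exact_mod_cast (by omega : 0 < X)
  have hLX0 : 0 < Real.log X := Real.log_pos (by exact_mod_cast (by omega : 1 < X))
  have hLN0 : 0 < Real.log N := Real.log_pos (by exact_mod_cast (by omega : 1 < N))
  have hΩ : ∀ v ∈ Ω, v ≤ N := by
    obtain ⟨P, y, x, hxN, _, _, _, _, _, rfl, _⟩ := hL
    intro v hv
    exact (mem_SS.1 hv).1.2.trans hxN
  have h4 := h3 X (by omega) (2 * X) le_rfl ℕ Ω p (fun v => cc + κ * v) g3 (by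
      intro v hv
      have e1 := (abs_le.1 hcc).2
      have e2 : (v : ℤ) ≤ N := by exact_mod_cast hΩ v hv
      have e3 : κ * v ≤ (κ.natAbs : ℤ) * N := by
        have : κ ≤ (κ.natAbs : ℤ) := Int.le_natAbs
        have e4 : (0 : ℤ) ≤ v := Int.natCast_nonneg _
        calc κ * v ≤ (κ.natAbs : ℤ) * v := mul_le_mul_of_nonneg_right this e4
          _ ≤ (κ.natAbs : ℤ) * N := mul_le_mul_of_nonneg_left e2 (by positivity)
      have e5 : (X : ℤ) = B * N + (κ.natAbs : ℤ) * N + N := by rw [hX, hA]; push_cast; ring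
      rw [e5]
      have : (0 : ℤ) ≤ N := Int.natCast_nonneg _
      linarith)
    (fun v => 0 < cc + κ * v ∧ Even (cc + κ * v) ∧
        ¬ (|(Pool.Agent.H560R3.GB.g (cc + κ * v).toNat : ℝ) - Pool.Agent.H560R3.GB.HL (cc + κ * v).toNat| ≤
          ε * Pool.Agent.H560R3.GB.HL (cc + κ * v).toNat ∧
        ∃ p q : ℕ, p.Prime ∧ q.Prime ∧ p ≠ q ∧ p + q = (cc + κ * v).toNat))
    (fun v => |((cc + κ * v : ℤ) : ℝ)| < (X : ℝ) / Real.log X ^ (W + 1)) (by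
      intro v _ h5 h6
      rw [abs_of_nonneg (by exact_mod_cast (by omega : (0 : ℤ) ≤ cc + κ * v))]
      exact h6) (hanti (by
      intro v _ hv v' _ hv'
      have h5 := abs_lt.1 hv
      have h6 := abs_lt.1 hv'
      have h7 : |(κ : ℝ)| * |(v : ℝ) - v'| ≤ 2 * ((X : ℝ) / Real.log X ^ (W + 1)) := by
        rw [← abs_mul]
        have e1 : (κ : ℝ) * ((v : ℝ) - v') = ((cc + κ * v : ℤ) : ℝ) - ((cc + κ * v' : ℤ) : ℝ) := by push_cast; ring
        rw [e1, abs_le]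
        constructor <;> linarith
      have h8 : (1 : ℝ) ≤ |(κ : ℝ)| := by
        have : (1 : ℤ) ≤ |κ| := Int.one_le_abs hκ
        have e2 : ((|κ| : ℤ) : ℝ) = |(κ : ℝ)| := by push_cast; rfl
        rw [← e2]
        exact_mod_cast this
      have h9 : 0 ≤ |(v : ℝ) - v'| := abs_nonneg _
      nlinarith)) (by
      intro v _ hE
      exact ⟨hE.1, hE.2.1.two_dvd, hE.2.2⟩)
  refine h4.trans ?_
  apply one_div_le_one_div_of_le (by positivity)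
  exact pow_le_pow_left₀ hLN0.le (Real.log_le_log (by exact_mod_cast (by omega : 0 < N)) (by exact_mod_cast hNX)) U

/-- the number of exceptions -/
theorem gold_card (δ : ℝ) (hδ : 0 < δ) (B K U : ℕ) (κ : ℤ) (hκ : κ ≠ 0) (ε : ℝ) (hε : 0 < ε) : ∃ N₀ : ℕ, ∀ N, N₀ ≤ N →
    ∀ (P : Finset ℕ) (y x : ℕ), x ≤ N → N ≤ B * x → (∀ p ∈ P, p.Prime ∧ p ≤ y) → 1 ≤ y → (y : ℝ) ≤ Real.log N ^ K →
    (y : ℝ) ^ (1 / 2 + δ) * Real.log N ≤ P.card → ∀ cc : ℤ, |cc| ≤ B * N → ∀ (E : ℕ → Prop) [DecidablePred E],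
      (∀ v : ℕ, E v → 0 < cc + κ * v ∧ Even (cc + κ * v) ∧
        ¬ (|(Pool.Agent.H560R3.GB.g (cc + κ * v).toNat : ℝ) - Pool.Agent.H560R3.GB.HL (cc + κ * v).toNat| ≤
          ε * Pool.Agent.H560R3.GB.HL (cc + κ * v).toNat ∧
        ∃ p q : ℕ, p.Prime ∧ q.Prime ∧ p ≠ q ∧ p + q = (cc + κ * v).toNat)) →
      (((SS P x).filter E).card : ℝ) ≤ ((SS P x).card : ℝ) / Real.log N ^ U := by
  classical
  obtain ⟨N₀, h⟩ := gold_law δ hδ B K U κ hκ ε hε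
  refine ⟨N₀ + B + 1, fun N hN P y x hxN hNx hP hy1 hyK hcard cc hcc E _ hE => ?_⟩
  have h1 := h N (by omega) (SS P x) (fun _ => 1 / ((SS P x).card : ℝ)) ⟨P, y, x, hxN, hNx, hP, hy1, hyK, hcard, rfl, rfl⟩ cc hcc
  have hx : 1 ≤ x := by
    rcases Nat.eq_zero_or_pos x with h0 | h0
    · rw [h0] at hNx
      omega
    · exact h0
  have hpos : (0 : ℝ) < (SS P x).card := by exact_mod_cast card_SS_pos P hx
  have h2 : ∑ v ∈ SS P x, (if E v then 1 / ((SS P x).card : ℝ) else 0) ≤ 1 / Real.log N ^ U := by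
    refine le_trans (sum_le_sum fun v _ => ?_) h1
    by_cases hv : E v
    · rw [if_pos hv, if_pos (hE v hv)]
    · rw [if_neg hv]
      split_ifs <;> positivity
  rw [← sum_filter, sum_const, nsmul_eq_mul, mul_one_div, div_le_iff₀ hpos] at h2
  refine h2.trans (le_of_eq ?_)
  ring

end Pool.Agent.N469.SQ
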