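import Pool.Agent.N469.SM.Bil
import Pool.Agent.N469.SQ.Cnt

set_option autoImplicit false

/-! The kernel of the bilinear form. -/

namespace Pool.Agent.N469.SQ
open Finset
open Pool.Agent.H807R2.Dav
open Pool.Agent.N469.SM (SS mem_SS one_mem_SS SS_mono SS_sub pf_mul pf_dvd card_SS_le card_SS_pos)

lemma sum_le_card (A B : ℕ) (x : ℝ) : ‖∑ d ∈ Ioc A B, ee ((d : ℝ) * x)‖ ≤ B := by
  refine (norm_sum_le _ _).trans ?_
  simp only [norm_ee, sum_const, nsmul_eq_mul, mul_one, Nat.card_Ioc]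
  exact_mod_cast Nat.sub_le _ _

lemma sum_le_dd (A B : ℕ) (x δ : ℝ) (hδ : 0 < δ) (h : δ ≤ dd x) : ‖∑ d ∈ Ioc A B, ee ((d : ℝ) * x)‖ ≤ 2 / δ := by
  rcases Nat.lt_or_ge B A with hAB | hAB
  · rw [Ioc_eq_empty (by omega), sum_empty, norm_zero]
    positivity
  have e0 : Ioc A B = Ico (A + 1) (B + 1) := by
    ext d
    rw [mem_Ioc, mem_Ico]
    omega
  rw [e0]
  obtain ⟨S, hS⟩ : ∃ S : ℂ, S = ∑ m ∈ Ico (A + 1) (B + 1), ee (m * x) := ⟨_, rfl⟩
  rw [← hS]
  have h2 : dd x * ‖S‖ ≤ 2 := by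
    have h3 : (1 - ee x) * S = ee x ^ (A + 1) - ee x ^ (B + 1) := by
      rw [hS]
      simp only [ee_pow]
      have := geom_sum_Ico_mul (ee x) (by omega : A + 1 ≤ B + 1)
      linear_combination -this
    have h4 : dd x * ‖S‖ = ‖ee x ^ (A + 1) - ee x ^ (B + 1)‖ := by
      rw [← h3, norm_mul]; rfl
    rw [h4]
    refine (norm_sub_le _ _).trans ?_
    rw [norm_pow, norm_pow, norm_ee]
    norm_num
  rw [le_div_iff₀ hδ]
  nlinarith [norm_nonneg S]

/-- distance to the integers, small case -/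
lemma dd_small (x : ℝ) (k : ℤ) (h : |x - k| ≤ 1 / 2) : 4 * |x - k| ≤ dd x := by
  have h1 : dd x = dd (x - k) := by
    have := dd_add_int (x - k) k
    rw [← this]
    congr 1
    ring
  rw [h1]
  rcases le_or_gt 0 (x - k) with h0 | h0
  · rw [abs_of_nonneg h0] at h ⊢
    have h2 := dd_ge h0 (by linarith)
    rw [min_eq_left (by linarith)] at h2
    exact h2
  · rw [abs_of_neg h0] at h ⊢
    rw [← dd_neg]
    have h2 := dd_ge (t := -(x - k)) (by linarith) (by linarith)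
    rw [min_eq_left (by linarith)] at h2
    exact h2

/-- distance to the integers away from multiples of `q` -/
lemma dd_frac (q : ℕ) (hq : 1 ≤ q) (c n : ℤ) (hc : IsCoprime c (q : ℤ)) (hn : ¬ (q : ℤ) ∣ n) (η : ℝ) (hη : |η| ≤ 1 / (2 * q)) (r : ℕ)
    (hr : (r : ℤ) = (n * c) % q) : 1 ≤ r ∧ r < q ∧ 2 * min (r : ℝ) (q - r) / q ≤ dd (((n * c : ℤ) : ℝ) / q + η) := by
  have hq0 : (0 : ℝ) < q := by exact_mod_cast hq
  have hqz : (0 : ℤ) < q := by exact_mod_cast hq
  have hr1 : (r : ℤ) < q := by rw [hr]; exact Int.emod_lt_of_pos _ hqz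
  have hrne : r ≠ 0 := by
    intro h
    rw [h] at hr
    have h1 : (q : ℤ) ∣ n * c := Int.dvd_of_emod_eq_zero (by rw [← hr]; rfl)
    exact hn (hc.symm.dvd_of_dvd_mul_right h1)
  refine ⟨by omega, by omega, ?_⟩
  obtain ⟨k, hk⟩ : ∃ k : ℤ, k = (n * c) / q := ⟨_, rfl⟩
  have hnc : n * c = r + q * k := by
    rw [hr, hk]
    exact (Int.emod_add_mul_ediv _ _).symm
  have h1 : (((n * c : ℤ) : ℝ) / q + η) = ((r : ℝ) / q + η) + k := by
    rw [hnc]
    push_cast
    field_simp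
    ring
  rw [h1, dd_add_int]
  have hr1' : (1 : ℝ) ≤ r := by exact_mod_cast (by omega : 1 ≤ r)
  have hr2' : (r : ℝ) + 1 ≤ q := by exact_mod_cast (by omega : r + 1 ≤ q)
  have hη' := abs_le.1 hη
  have e1 : 1 / (2 * (q : ℝ)) = (1 / 2) / q := by field_simp
  rw [e1] at hη'
  have h2 : (r - 1 / 2) / (q : ℝ) ≤ (r : ℝ) / q + η := by
    have e2 : ((r : ℝ) - 1 / 2) / q = r / q - (1 / 2) / q := by ring
    linarith [hη'.1]
  have h3 : (r : ℝ) / q + η ≤ 1 - (q - r - 1 / 2) / (q : ℝ) := by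
    have e2 : 1 - ((q : ℝ) - r - 1 / 2) / q = r / q + (1 / 2) / q := by field_simp; ring
    linarith [hη'.2]
  have h4 : 0 ≤ ((r : ℝ) - 1 / 2) / q := div_nonneg (by linarith) hq0.le
  have h5 : 0 ≤ ((q : ℝ) - r - 1 / 2) / q := div_nonneg (by linarith) hq0.le
  have h6 := dd_ge (t := (r : ℝ) / q + η) (by linarith) (by linarith)
  refine le_trans ?_ h6
  have h7 : min (r : ℝ) (q - r) / (2 * q) ≤ min ((r : ℝ) / q + η) (1 - ((r : ℝ) / q + η)) := by
    apply le_min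
    · refine le_trans ?_ h2
      rw [div_le_div_iff₀ (by positivity) hq0]
      have := min_le_left (r : ℝ) (q - r)
      nlinarith
    · refine le_trans ?_ (by linarith : ((q : ℝ) - r - 1 / 2) / (q : ℝ) ≤ 1 - ((r : ℝ) / q + η))
      rw [div_le_div_iff₀ (by positivity) hq0]
      have := min_le_right (r : ℝ) (q - r)
      nlinarith
  calc 2 * min (r : ℝ) (q - r) / q = 4 * (min (r : ℝ) (q - r) / (2 * q)) := by field_simp; ring
    _ ≤ _ := by linarith

/-- the residue -/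
def rs (q : ℕ) (c : ℤ) (m m' : ℕ) : ℕ := ((((m : ℤ) - m') * c) % (q : ℤ)).toNat

lemma rs_cast {q : ℕ} (hq : 1 ≤ q) (c : ℤ) (m m' : ℕ) : ((rs q c m m' : ℕ) : ℤ) = (((m : ℤ) - m') * c) % (q : ℤ) := by
  unfold rs
  rw [Int.toNat_of_nonneg]
  exact Int.emod_nonneg _ (by omega)

open Classical in
/-- the kernel -/
noncomputable def kap (y N D q b : ℕ) (c : ℤ) (m m' : ℕ) : ℝ :=
  if (q : ℤ) ∣ (m : ℤ) - m' then
    ∑ i ∈ range (b + 1), (if |(m' : ℝ) - m| ≤ ((N : ℝ) / D) * (y : ℝ) ^ (i - b : ℤ) then (D : ℝ) * (y : ℝ) ^ (2 - i : ℤ) else 0)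
  else (q : ℝ) / (rs q c m m') + (q : ℝ) / (q - rs q c m m')

lemma kap_nonneg {q : ℕ} (hq : 1 ≤ q) (y N D b : ℕ) (c : ℤ) (m m' : ℕ) : 0 ≤ kap y N D q b c m m' := by
  unfold kap
  have h1 : (rs q c m m' : ℝ) ≤ q := by
    have h2 := rs_cast hq c m m'
    have h3 := Int.emod_lt_of_pos (((m : ℤ) - m') * c) (by omega : (0 : ℤ) < q)
    have : rs q c m m' ≤ q := by omega
    exact_mod_cast this
  split_ifs with h
  · apply sum_nonneg
    intro i _
    split_ifs <;> positivity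
  · have h4 : (0 : ℝ) ≤ (q : ℝ) - rs q c m m' := by linarith
    positivity

/-- parameters of a frequency -/
structure Fr (y N : ℕ) (θ : ℝ) (q : ℕ) (c : ℤ) (a b : ℕ) : Prop where
  q1 : 1 ≤ q
  cop : IsCoprime c (q : ℤ)
  qa : q ≤ y ^ a
  aq : y ^ a ≤ q * y
  beta : |θ - c / q| * N ≤ (y : ℝ) ^ b
  beta' : b = 0 ∨ (y : ℝ) ^ b ≤ |θ - c / q| * N * y

lemma ker_le {y N : ℕ} (hy : 2 ≤ y) (hN : 1 ≤ N) {θ : ℝ} {q : ℕ} {c : ℤ} {a b : ℕ} (hf : Fr y N θ q c a b) {D : ℕ}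
    (hD : D = y ^ (a + b + 1)) (m m' B : ℕ) (hm : m ≤ N / D) (hm' : m' ≤ N / D) (hB : B ≤ D * y) :
    ‖∑ d ∈ Ioc D B, ee ((d : ℝ) * (((m : ℝ) - m') * θ))‖ ≤ kap y N D q b c m m' := by
  classical
  have hy2 : (2 : ℝ) ≤ y := by exact_mod_cast hy
  have hy1 : (1 : ℝ) ≤ y := by linarith
  have hy0 : (0 : ℝ) < y := by linarith
  have hyn : 0 < y := by omega
  have hq1 := hf.q1
  have hq0 : (0 : ℝ) < q := by exact_mod_cast hq1
  have hD1 : 1 ≤ D := by rw [hD]; exact Nat.pow_pos hyn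
  have hD0 : (0 : ℝ) < D := by exact_mod_cast hD1
  have hN0 : (0 : ℝ) < N := by exact_mod_cast hN
  obtain ⟨β, hβ⟩ : ∃ β : ℝ, β = θ - c / q := ⟨_, rfl⟩
  have hb1 := hf.beta
  have hb2 := hf.beta'
  rw [← hβ] at hb1 hb2
  have hdiff : |(m : ℝ) - m'| ≤ (N : ℝ) / D := by
    have h1 : (m : ℝ) ≤ (N : ℝ) / D := (by exact_mod_cast hm : (m : ℝ) ≤ ((N / D : ℕ) : ℝ)).trans Nat.cast_div_le
    have h2 : (m' : ℝ) ≤ (N : ℝ) / D := (by exact_mod_cast hm' : (m' : ℝ) ≤ ((N / D : ℕ) : ℝ)).trans Nat.cast_div_le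
    have h3 : (0 : ℝ) ≤ m := Nat.cast_nonneg _
    have h4 : (0 : ℝ) ≤ m' := Nat.cast_nonneg _
    rw [abs_le]
    constructor <;> linarith
  have hsmall : |((m : ℝ) - m') * β| ≤ 1 / (2 * q) := by
    rw [abs_mul]
    have h1 : |(m : ℝ) - m'| * |β| ≤ (N : ℝ) / D * |β| := mul_le_mul_of_nonneg_right hdiff (abs_nonneg _)
    have h2 : (N : ℝ) / D * |β| ≤ (y : ℝ) ^ b / D := by
      rw [div_mul_eq_mul_div]
      apply div_le_div_of_nonneg_right _ hD0.le
      linarith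
    refine (h1.trans h2).trans ?_
    rw [div_le_div_iff₀ hD0 (by positivity)]
    have h3 : (q : ℝ) ≤ (y : ℝ) ^ a := by exact_mod_cast hf.qa
    calc (y : ℝ) ^ b * (2 * q) ≤ (y : ℝ) ^ b * (y * (y : ℝ) ^ a) := by gcongr
      _ = 1 * D := by rw [hD]; push_cast; ring
  unfold kap
  by_cases hdvd : (q : ℤ) ∣ (m : ℤ) - m'
  · rw [if_pos hdvd]
    obtain ⟨T, hT⟩ : ∃ T : ℕ → ℝ, T = fun i : ℕ => ((N : ℝ) / D) * (y : ℝ) ^ ((i : ℤ) - b) := ⟨_, rfl⟩
    have hTi : ∀ i : ℕ, ((N : ℝ) / D) * (y : ℝ) ^ ((i : ℤ) - b) = T i := fun i => by rw [hT]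
    simp only [hTi]
    have hnn : ∀ i ∈ range (b + 1), 0 ≤ (if |(m' : ℝ) - m| ≤ T i then (D : ℝ) * (y : ℝ) ^ (2 - i : ℤ) else 0) := by
      intro i _
      split_ifs <;> positivity
    have hex : ∃ i, |(m' : ℝ) - m| ≤ T i := by
      refine ⟨b, ?_⟩
      rw [← hTi, sub_self, zpow_zero, mul_one, abs_sub_comm]
      exact hdiff
    obtain ⟨i, hi⟩ : ∃ i, i = Nat.find hex := ⟨_, rfl⟩
    have hi1 : |(m' : ℝ) - m| ≤ T i := by rw [hi]; exact Nat.find_spec hex
    have hi2 : i ≤ b := by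
      rw [hi]
      apply Nat.find_min' hex
      rw [← hTi, sub_self, zpow_zero, mul_one, abs_sub_comm]
      exact hdiff
    refine le_trans ?_ (single_le_sum hnn (mem_range.2 (by omega : i < b + 1)))
    rw [if_pos hi1]
    rcases Nat.eq_zero_or_pos i with h0 | h0
    · rw [h0]
      refine (sum_le_card _ _ _).trans ?_
      have h1 : (B : ℝ) ≤ D * y := by exact_mod_cast hB
      refine h1.trans (mul_le_mul_of_nonneg_left ?_ hD0.le)
      have : (y : ℝ) ^ ((2 : ℤ) - ((0 : ℕ) : ℤ)) = y ^ 2 := by norm_num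
      rw [this]
      nlinarith
    · have hi3 : ¬ |(m' : ℝ) - m| ≤ T (i - 1) := by
        apply Nat.find_min hex
        omega
      push Not at hi3
      have hb3 := hb2.resolve_left (by omega)
      obtain ⟨k, hk⟩ := hdvd
      have hkr : (m : ℝ) - m' = q * k := by exact_mod_cast hk
      have hx : ((m : ℝ) - m') * θ - ((k * c : ℤ) : ℝ) = ((m : ℝ) - m') * β := by
        rw [hβ, mul_sub, hkr]
        push_cast
        field_simp
      have h1 : |((m : ℝ) - m') * θ - ((k * c : ℤ) : ℝ)| ≤ 1 / 2 := by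
        rw [hx]
        refine hsmall.trans ?_
        rw [div_le_div_iff₀ (by positivity) (by norm_num)]
        have : (1 : ℝ) ≤ q := by exact_mod_cast hq1
        linarith
      have h2 := dd_small _ _ h1
      rw [hx, abs_mul] at h2
      have hβ0 : 0 < |β| := by
        by_contra hcon
        have h3 : |β| = 0 := le_antisymm (not_lt.1 hcon) (abs_nonneg _)
        rw [h3, zero_mul, zero_mul] at hb3
        have : (0 : ℝ) < (y : ℝ) ^ b := by positivity
        linarith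
      have hT0 : 0 < T (i - 1) := by rw [← hTi]; positivity
      have h3 : 4 * (T (i - 1) * |β|) ≤ dd (((m : ℝ) - m') * θ) := by
        refine le_trans ?_ h2
        rw [abs_sub_comm] at hi3
        have := mul_le_mul_of_nonneg_right hi3.le hβ0.le
        linarith
      refine (sum_le_dd D B _ _ (by positivity) h3).trans ?_
      have h4 : 1 / (D : ℝ) * (y : ℝ) ^ (i - 2 : ℤ) ≤ T (i - 1) * |β| := by
        have e1 : (y : ℝ) ^ (i - 2 : ℤ) = (y : ℝ) ^ b * (y : ℝ) ^ (((i - 1 : ℕ) : ℤ) - b) / y := by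
          rw [eq_div_iff hy0.ne', ← zpow_natCast, ← zpow_add₀ hy0.ne', ← zpow_add_one₀ hy0.ne']
          congr 1
          have : ((i - 1 : ℕ) : ℤ) = (i : ℤ) - 1 := by omega
          rw [this]
          ring
        rw [e1, ← hTi]
        have e2 : (N : ℝ) / D * (y : ℝ) ^ (((i - 1 : ℕ) : ℤ) - b) * |β| =
            1 / (D : ℝ) * ((|β| * N * y) * (y : ℝ) ^ (((i - 1 : ℕ) : ℤ) - b) / y) := by
          field_simp
        rw [e2]
        apply mul_le_mul_of_nonneg_left _ (by positivity)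
        apply div_le_div_of_nonneg_right _ hy0.le
        exact mul_le_mul_of_nonneg_right hb3 (by positivity)
      rw [div_le_iff₀ (by positivity)]
      have h5 : (y : ℝ) ^ (2 - i : ℤ) * (y : ℝ) ^ (i - 2 : ℤ) = 1 := by
        rw [← zpow_add₀ hy0.ne']
        have : (2 - (i : ℤ)) + (i - 2) = 0 := by ring
        rw [this, zpow_zero]
      have h6 : (D : ℝ) * (y : ℝ) ^ (2 - i : ℤ) * (1 / (D : ℝ) * (y : ℝ) ^ (i - 2 : ℤ)) = 1 := by
        calc _ = ((D : ℝ) * (1 / D)) * ((y : ℝ) ^ (2 - i : ℤ) * (y : ℝ) ^ (i - 2 : ℤ)) := by ring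
          _ = 1 := by rw [h5, mul_one_div_cancel hD0.ne', mul_one]
      have h7 : (D : ℝ) * (y : ℝ) ^ (2 - i : ℤ) * (1 / (D : ℝ) * (y : ℝ) ^ (i - 2 : ℤ)) ≤
          (D : ℝ) * (y : ℝ) ^ (2 - i : ℤ) * (T (i - 1) * |β|) := mul_le_mul_of_nonneg_left h4 (by positivity)
      rw [h6] at h7
      linarith
  · rw [if_neg hdvd]
    have hx : ((m : ℝ) - m') * θ = ((((m : ℤ) - m') * c : ℤ) : ℝ) / q + ((m : ℝ) - m') * β := by
      rw [hβ]
      push_cast
      field_simp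
      ring
    obtain ⟨r, hr⟩ : ∃ r, r = rs q c m m' := ⟨_, rfl⟩
    rw [← hr]
    obtain ⟨g1, g2, g3⟩ := dd_frac q hq1 c ((m : ℤ) - m') hf.cop hdvd (((m : ℝ) - m') * β) hsmall r (by rw [hr]; exact rs_cast hq1 c m m')
    rw [← hx] at g3
    have hr0 : (0 : ℝ) < r := by exact_mod_cast g1
    have hqr : (0 : ℝ) < (q : ℝ) - r := by
      have : (r : ℝ) < q := by exact_mod_cast g2
      linarith
    have hmin : 0 < min (r : ℝ) (q - r) := lt_min hr0 hqr
    refine (sum_le_dd D B _ _ (by positivity) g3).trans ?_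
    have e1 : 2 / (2 * min (r : ℝ) (q - r) / q) = q / min (r : ℝ) (q - r) := by field_simp
    rw [e1]
    rcases min_choice (r : ℝ) (q - r) with h | h
    · rw [h]
      have : 0 ≤ (q : ℝ) / (q - r) := by positivity
      linarith
    · rw [h]
      have : 0 ≤ (q : ℝ) / r := by positivity
      linarith

open Classical in
/-- the sums of the kernel -/
lemma ker_sum {P : Finset ℕ} {y N : ℕ} (hy1 : 1 ≤ y) (hP : ∀ p ∈ P, p ≤ y) {q : ℕ} (hq : 1 ≤ q) {c : ℤ} (hc : IsCoprime c (q : ℤ)) (b : ℕ) {D : ℕ}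
    (m : ℕ) :
    ∑ m' ∈ SS P (N / D), kap y N D q b c m m' ≤
      (9 + 9 * y * (SS P ⌊3 * ((N : ℝ) / D) / q⌋₊).card) * (2 * q * (1 + Real.log q)) +
      ∑ i ∈ range (b + 1), (D : ℝ) * (y : ℝ) ^ (2 - i : ℤ) * (9 + 9 * y * (SS P ⌊3 * (((N : ℝ) / D) * (y : ℝ) ^ (i - b : ℤ)) / q⌋₊).card) := by
  have hq0 : (0 : ℝ) < q := by exact_mod_cast hq
  have hND : (0 : ℝ) ≤ (N : ℝ) / D := by positivity
  rw [← sum_filter_not_add_sum_filter (SS P (N / D)) (fun m' : ℕ => (q : ℤ) ∣ (m : ℤ) - m')]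
  apply add_le_add
  · -- non-congruent
    obtain ⟨S, hS⟩ : ∃ S, S = (SS P (N / D)).filter (fun m' : ℕ => ¬ (q : ℤ) ∣ (m : ℤ) - m') := ⟨_, rfl⟩
    rw [← hS]
    have h1 : ∀ m' ∈ S, kap y N D q b c m m' = (q : ℝ) / (rs q c m m') + (q : ℝ) / (q - rs q c m m') := by
      intro m' hm'
      rw [hS, mem_filter] at hm'
      unfold kap
      rw [if_neg hm'.2]
    rw [sum_congr rfl h1]
    have h2 : ∀ m' ∈ S, rs q c m m' ∈ range q := by
      intro m' _
      rw [mem_range]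
      have h2 := rs_cast hq c m m'
      have h3 := Int.emod_lt_of_pos (((m : ℤ) - m') * c) (by omega : (0 : ℤ) < q)
      omega
    rw [← sum_fiberwise_of_maps_to h2]
    have h3 : ∀ r ∈ range q, ∑ m' ∈ S.filter (fun m' => rs q c m m' = r), ((q : ℝ) / (rs q c m m') + (q : ℝ) / (q - rs q c m m')) ≤
        (9 + 9 * y * (SS P ⌊3 * ((N : ℝ) / D) / q⌋₊).card) * ((q : ℝ) / r + (q : ℝ) / (q - r)) := by
      intro r hr
      rw [mem_range] at hr
      have hr' : (r : ℝ) ≤ q := by exact_mod_cast hr.le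
      have e1 : ∀ m' ∈ S.filter (fun m' => rs q c m m' = r), ((q : ℝ) / (rs q c m m') + (q : ℝ) / (q - rs q c m m')) = (q : ℝ) / r + (q : ℝ) / (q - r) := by
        intro m' hm'
        rw [mem_filter] at hm'
        rw [hm'.2]
      rw [sum_congr rfl e1, sum_const, nsmul_eq_mul]
      apply mul_le_mul_of_nonneg_right
      · rcases (S.filter (fun m' => rs q c m m' = r)).eq_empty_or_nonempty with h0 | ⟨m₀, hm₀⟩
        · rw [h0, card_empty]
          push_cast
          positivity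
        · have hmem : ∀ n ∈ S.filter (fun m' => rs q c m m' = r), n ∈ SS P (N / D) ∧ rs q c m n = r := by
            intro n hn
            rw [mem_filter, hS, mem_filter] at hn
            exact ⟨hn.1.1, hn.2⟩
          have hm₀' := hmem m₀ hm₀
          apply loc P y hy1 hP q m₀ hq ((N : ℝ) / D) hND
          · intro n hn
            have := mem_SS.1 (hmem n hn).1
            exact ⟨this.1.1, this.2⟩
          · intro n hn
            have e2 := rs_cast hq c m n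
            have e3 := rs_cast hq c m m₀
            rw [(hmem n hn).2] at e2
            rw [hm₀'.2] at e3
            have e4 : (((m : ℤ) - m₀) * c) % (q : ℤ) = (((m : ℤ) - n) * c) % (q : ℤ) := by rw [← e2, ← e3]
            have e5 : (q : ℤ) ∣ ((m : ℤ) - m₀) * c - ((m : ℤ) - n) * c := Int.ModEq.dvd (Int.ModEq.symm e4)
            have e6 : ((m : ℤ) - m₀) * c - ((m : ℤ) - n) * c = ((n : ℤ) - m₀) * c := by ring
            rw [e6] at e5
            exact hc.symm.dvd_of_dvd_mul_right e5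
          · intro n hn
            have a1 := (mem_SS.1 (hmem n hn).1).1.2
            have a2 := (mem_SS.1 hm₀'.1).1.2
            have b1 : (n : ℝ) ≤ (N : ℝ) / D := (by exact_mod_cast a1 : (n : ℝ) ≤ ((N / D : ℕ) : ℝ)).trans Nat.cast_div_le
            have b2 : (m₀ : ℝ) ≤ (N : ℝ) / D := (by exact_mod_cast a2 : (m₀ : ℝ) ≤ ((N / D : ℕ) : ℝ)).trans Nat.cast_div_le
            have b3 : (0 : ℝ) ≤ n := Nat.cast_nonneg _
            have b4 : (0 : ℝ) ≤ m₀ := Nat.cast_nonneg _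
            rw [abs_le]
            constructor <;> linarith
      · have : (0 : ℝ) ≤ (q : ℝ) - r := by linarith
        positivity
    refine (sum_le_sum h3).trans ?_
    rw [← mul_sum]
    apply mul_le_mul_of_nonneg_left _ (by positivity)
    have e1 : ∑ r ∈ range q, ((q : ℝ) / r + (q : ℝ) / (q - r)) = q * (∑ r ∈ range q, (1 / (r : ℝ)) + ∑ r ∈ range q, (1 / ((q : ℝ) - r))) := by
      rw [← sum_add_distrib, mul_sum]
      apply sum_congr rfl
      intro r _
      ring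
    rw [e1]
    have e2 := sum_inv_range q
    have e3 := sum_inv_range' q
    nlinarith
  · -- congruent
    obtain ⟨S, hS⟩ : ∃ S, S = (SS P (N / D)).filter (fun m' : ℕ => (q : ℤ) ∣ (m : ℤ) - m') := ⟨_, rfl⟩
    rw [← hS]
    have h1 : ∀ m' ∈ S, kap y N D q b c m m' = ∑ i ∈ range (b + 1), (if |(m' : ℝ) - m| ≤ ((N : ℝ) / D) * (y : ℝ) ^ (i - b : ℤ) then (D : ℝ) * (y : ℝ) ^ (2 - i : ℤ) else 0) := by
      intro m' hm'
      rw [hS, mem_filter] at hm'
      unfold kap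
      rw [if_pos hm'.2]
    rw [sum_congr rfl h1, sum_comm]
    apply sum_le_sum
    intro i _
    rw [← sum_filter, sum_const, nsmul_eq_mul, mul_comm]
    apply mul_le_mul_of_nonneg_left _ (by positivity)
    apply loc P y hy1 hP q m hq (((N : ℝ) / D) * (y : ℝ) ^ (i - b : ℤ)) (by positivity)
    · intro n hn
      rw [mem_filter, hS, mem_filter] at hn
      have := mem_SS.1 hn.1.1
      exact ⟨this.1.1, this.2⟩
    · intro n hn
      rw [mem_filter, hS, mem_filter] at hn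
      have := hn.1.2
      rw [← neg_sub, dvd_neg]
      exact this
    · intro n hn
      rw [mem_filter] at hn
      exact hn.2

end Pool.Agent.N469.SQ
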