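import Pool.Agent.N469.SM.Law
import Pool.Agent.N469.SQ.Exp

set_option autoImplicit false

/-! The law of a random integer composed of primes from `P`. -/

namespace Pool.Agent.N469.SQ
open Finset
open Pool.Agent.H807R2.Dav
open Pool.Agent.H373R2.T7
open Pool.Agent.W93.DG
open Pool.Agent.W93.RD
open Pool.Agent.W93.TD
open Pool.Agent.W93.AU
open Pool.Agent.N469.PT
open Pool.Agent.N469.SM (SS mem_SS one_mem_SS SS_mono card_SS_le card_SS_pos FL fl_one)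

open Classical in
/-- the frequencies which are close to rationals with small denominators -/
noncomputable def maj (κ M x Q : ℕ) : Finset ℕ :=
  (range M).filter (fun t => ∃ (q : ℕ) (c : ℤ), 1 ≤ q ∧ q ≤ Q ∧ |(κ : ℝ) * ((t : ℝ) / M) - c / q| * x ≤ Q)

lemma mem_maj {κ M x Q t : ℕ} : t ∈ maj κ M x Q ↔
    t ∈ range M ∧ ∃ (q : ℕ) (c : ℤ), 1 ≤ q ∧ q ≤ Q ∧ |(κ : ℝ) * ((t : ℝ) / M) - c / q| * x ≤ Q := by
  classical
  unfold maj
  rw [mem_filter]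

open Classical in
lemma maj_card (κ M x Q : ℕ) (hκ : 1 ≤ κ) (hM : 1 ≤ M) (hQ : 1 ≤ Q) (hx : Q ≤ x) :
    ((maj κ M x Q).card : ℝ) ≤ (Q : ℝ) * ((κ + 2) * Q + 1) * (2 * Q * M / x + 1) := by
  have hM0 : (0 : ℝ) < M := by exact_mod_cast hM
  have hx0 : (0 : ℝ) < x := by exact_mod_cast (by omega : 0 < x)
  have hκr : (1 : ℝ) ≤ κ := by exact_mod_cast hκ
  have hQr : (1 : ℝ) ≤ Q := by exact_mod_cast hQ
  have hQx : (Q : ℝ) ≤ x := by exact_mod_cast hx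
  have hsub : maj κ M x Q ⊆ (Icc 1 Q ×ˢ Icc (-(Q : ℤ)) (((κ + 1) * Q : ℕ) : ℤ)).biUnion
      (fun a => (range M).filter (fun t : ℕ => |(κ : ℝ) * ((t : ℝ) / M) - (a.2 : ℝ) / (a.1 : ℝ)| * x ≤ Q)) := by
    intro t ht
    unfold maj at ht
    rw [mem_filter, mem_range] at ht
    obtain ⟨htM, q, c, hq1, hqQ, h1⟩ := ht
    rw [mem_biUnion]
    have hq0 : (0 : ℝ) < q := by exact_mod_cast hq1
    have hqQ' : (q : ℝ) ≤ Q := by exact_mod_cast hqQ
    refine ⟨(q, c), ?_, ?_⟩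
    · rw [mem_product, mem_Icc, mem_Icc]
      have h2 : |(κ : ℝ) * ((t : ℝ) / M) - c / q| ≤ 1 := by
        have h3 : |(κ : ℝ) * ((t : ℝ) / M) - c / q| * x ≤ 1 * x := by linarith
        exact le_of_mul_le_mul_right h3 hx0
      have h3 := abs_le.1 h2
      have h4 : (0 : ℝ) ≤ (t : ℝ) / M := by positivity
      have h5 : (t : ℝ) / M ≤ 1 := by
        rw [div_le_one hM0]
        exact_mod_cast htM.le
      have h6 : (κ : ℝ) * ((t : ℝ) / M) ≤ κ := by nlinarith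
      have h7 : 0 ≤ (κ : ℝ) * ((t : ℝ) / M) := by positivity
      have h8 : -(1 : ℝ) ≤ (c : ℝ) / q := by linarith [h3.2]
      have h9 : (c : ℝ) / q ≤ κ + 1 := by linarith [h3.1]
      rw [le_div_iff₀ hq0] at h8
      rw [div_le_iff₀ hq0] at h9
      refine ⟨⟨hq1, hqQ⟩, ?_, ?_⟩
      · have : (-(Q : ℝ)) ≤ c := by linarith
        exact_mod_cast this
      · have : (c : ℝ) ≤ (κ + 1) * Q := h9.trans (mul_le_mul_of_nonneg_left hqQ' (by positivity))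
        push_cast
        exact_mod_cast this
    · rw [mem_filter, mem_range]
      exact ⟨htM, h1⟩
  have h1 : ∀ a ∈ (Icc 1 Q ×ˢ Icc (-(Q : ℤ)) (((κ + 1) * Q : ℕ) : ℤ)),
      (((range M).filter (fun t : ℕ => |(κ : ℝ) * ((t : ℝ) / M) - (a.2 : ℝ) / (a.1 : ℝ)| * x ≤ Q)).card : ℝ) ≤ 2 * Q * M / x + 1 := by
    rintro ⟨q, c⟩ _
    have h2 := cls_card ((range M).filter (fun t : ℕ => |(κ : ℝ) * ((t : ℝ) / M) - (c : ℝ) / (q : ℝ)| * x ≤ Q)) 1 1 le_rfl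
      (2 * Q * M / x) (by positivity) (by
        intro t ht t' ht'
        rw [mem_filter] at ht ht'
        have e1 : |(κ : ℝ) * ((t : ℝ) / M) - (c : ℝ) / (q : ℝ)| ≤ Q / x := by
          rw [le_div_iff₀ hx0]; exact ht.2
        have e2 : |(κ : ℝ) * ((t' : ℝ) / M) - (c : ℝ) / (q : ℝ)| ≤ Q / x := by
          rw [le_div_iff₀ hx0]; exact ht'.2
        have e3 := abs_le.1 e1
        have e4 := abs_le.1 e2
        have e5 : (κ : ℝ) * (((t : ℝ) - t') / M) ≤ 2 * (Q / x) := by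
          have : (κ : ℝ) * (((t : ℝ) - t') / M) = (κ : ℝ) * ((t : ℝ) / M) - (κ : ℝ) * ((t' : ℝ) / M) := by ring
          rw [this]
          linarith
        by_contra hcon
        push Not at hcon
        have e6 : 0 < (t : ℝ) - t' := lt_of_le_of_lt (by positivity) hcon
        have e7 : ((t : ℝ) - t') / M ≤ (κ : ℝ) * (((t : ℝ) - t') / M) := le_mul_of_one_le_left (by positivity) hκr
        have e8 : ((t : ℝ) - t') ≤ 2 * (Q / x) * M := by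
          rw [← div_le_iff₀ hM0]
          exact e7.trans e5
        have e9 : 2 * ((Q : ℝ) / x) * M = 2 * Q * M / x := by ring
        linarith) (by
        intro e _ e' _
        simp)
    refine h2.trans (le_of_eq ?_)
    simp
  have h2 : ((maj κ M x Q).card : ℝ) ≤ ∑ a ∈ (Icc 1 Q ×ˢ Icc (-(Q : ℤ)) (((κ + 1) * Q : ℕ) : ℤ)),
      (((range M).filter (fun t : ℕ => |(κ : ℝ) * ((t : ℝ) / M) - (a.2 : ℝ) / (a.1 : ℝ)| * x ≤ Q)).card : ℝ) := by
    exact_mod_cast (card_le_card hsub).trans card_biUnion_le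
  refine h2.trans ((sum_le_card_nsmul _ _ _ h1).trans (le_of_eq ?_))
  rw [card_product, Nat.card_Icc, Int.card_Icc, nsmul_eq_mul, Nat.add_sub_cancel]
  congr 1
  have h3 : ((((κ + 1) * Q : ℕ) : ℤ) + 1 - -(Q : ℤ)).toNat = (κ + 2) * Q + 1 := by
    have : ((((κ + 1) * Q : ℕ) : ℤ) + 1 - -(Q : ℤ)) = (((κ + 2) * Q + 1 : ℕ) : ℤ) := by
      push_cast
      ring
    rw [this, Int.toNat_natCast]
  rw [h3]
  push_cast
  ring

/-- the class of the laws: uniform distribution on the integers of `[1, x]` composed of primes from `P` -/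
def Sm (δ : ℝ) (B K : ℕ) (N : ℕ) (Ω : Finset ℕ) (p : ℕ → ℝ) : Prop :=
  ∃ (P : Finset ℕ) (y x : ℕ), x ≤ N ∧ N ≤ B * x ∧ (∀ p ∈ P, p.Prime ∧ p ≤ y) ∧ 1 ≤ y ∧ (y : ℝ) ≤ Real.log N ^ K ∧
    (y : ℝ) ^ (1 / 2 + δ) * Real.log N ≤ P.card ∧ Ω = SS P x ∧ p = fun _ => 1 / ((SS P x).card : ℝ)

/-- basic facts for large `N` -/
lemma sm_facts (δ : ℝ) (hδ : 0 < δ) (B K Cx : ℕ) (hCx : 1 ≤ Cx) : ∃ m : ℕ, ∀ V : ℕ, ∃ N₀ : ℕ, ∀ N, N₀ ≤ N →
    ∀ (P : Finset ℕ) (y x : ℕ), x ≤ N → N ≤ B * x → (∀ p ∈ P, p.Prime ∧ p ≤ y) → 1 ≤ y → (y : ℝ) ≤ Real.log N ^ K →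
    (y : ℝ) ^ (1 / 2 + δ) * Real.log N ≤ P.card →
    ∃ ρ w : ℝ, Hyp P y ρ w m x ∧ Real.log ((Cx * N : ℕ) : ℝ) ≤ y ∧ y ^ V ≤ x ∧ 1 ≤ x := by
  obtain ⟨m, hm⟩ := exists_nat_ge (2 / δ)
  refine ⟨m, fun V => ?_⟩
  obtain ⟨n1, h1⟩ := ev_log' (K * V) (B : ℝ)
  -- how large `y` should be
  obtain ⟨Y, hY⟩ : ∃ Y : ℕ, (4 : ℝ) ^ (1 / δ) ≤ (Y : ℝ) := exists_nat_ge _
  obtain ⟨n2, h2⟩ := ev_L' (Real.log ((Cx : ℕ) : ℝ) + Y + 4)
  refine ⟨n1 + n2 + 4 * B + 4, fun N hN P y x hxN hNx hP hy1 hyK hcard => ?_⟩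
  have hL := h2 N (by omega)
  have hCx0 : 0 ≤ Real.log ((Cx : ℕ) : ℝ) := Real.log_natCast_nonneg _
  have hYn : (0 : ℝ) ≤ Y := Nat.cast_nonneg _
  have hV := h1 N (by omega)
  obtain ⟨L, hLd⟩ : ∃ L, L = Real.log (N : ℝ) := ⟨_, rfl⟩
  rw [← hLd] at hL hyK hcard hV
  have hL4 : 4 ≤ L := by linarith
  have hL0 : 0 < L := by linarith
  have hx4 : 4 ≤ x := by
    by_contra hcon
    push Not at hcon
    have : B * x ≤ B * 4 := Nat.mul_le_mul_left _ (by omega)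
    omega
  have hPy : P.card ≤ y := by
    have : P ⊆ Icc 1 y := fun p hp => mem_Icc.2 ⟨(hP p hp).1.pos, (hP p hp).2⟩
    have := card_le_card this
    rwa [Nat.card_Icc, Nat.add_sub_cancel] at this
  have hPyr : (P.card : ℝ) ≤ y := by exact_mod_cast hPy
  have hy1r : (1 : ℝ) ≤ y := by exact_mod_cast hy1
  have hy0 : (0 : ℝ) < y := by linarith
  -- `y` is at least `L ^ 2`
  have hyL : L ^ 2 ≤ y := by
    have e1 : (y : ℝ) ^ ((1 : ℝ) / 2) ≤ (y : ℝ) ^ (1 / 2 + δ) := Real.rpow_le_rpow_of_exponent_le hy1r (by linarith)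
    have e2 : (y : ℝ) ^ ((1 : ℝ) / 2) * L ≤ y := by
      calc (y : ℝ) ^ ((1 : ℝ) / 2) * L ≤ (y : ℝ) ^ (1 / 2 + δ) * L := mul_le_mul_of_nonneg_right e1 hL0.le
        _ ≤ y := hcard.trans hPyr
    rw [← Real.sqrt_eq_rpow] at e2
    have e3 : 0 < √(y : ℝ) := Real.sqrt_pos.2 hy0
    have e4 : √(y : ℝ) * L ≤ √(y : ℝ) * √(y : ℝ) := by
      rw [Real.mul_self_sqrt hy0.le]
      exact e2
    have e5 := le_of_mul_le_mul_left e4 e3
    calc L ^ 2 ≤ √(y : ℝ) ^ 2 := pow_le_pow_left₀ hL0.le e5 2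
      _ = y := Real.sq_sqrt hy0.le
  have hyY : (Y : ℝ) ≤ y := by nlinarith
  have hyδ2 : 2 ≤ (y : ℝ) ^ (δ / 2) := by
    have e1 : (4 : ℝ) ^ (1 / δ) ≤ y := hY.trans hyY
    have e2 : ((4 : ℝ) ^ (1 / δ)) ^ (δ / 2) ≤ (y : ℝ) ^ (δ / 2) := Real.rpow_le_rpow (by positivity) e1 (by positivity)
    rw [← Real.rpow_mul (by norm_num)] at e2
    have e3 : 1 / δ * (δ / 2) = 1 / 2 := by field_simp
    rw [e3, ← Real.sqrt_eq_rpow] at e2
    have e4 : √(4 : ℝ) = 2 := by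
      rw [show (4 : ℝ) = 2 ^ 2 by norm_num]
      exact Real.sqrt_sq (by norm_num)
    rw [e4] at e2
    exact e2
  obtain ⟨w, hw⟩ : ∃ w : ℝ, w = (y : ℝ) ^ (δ / 2) := ⟨_, rfl⟩
  rw [← hw] at hyδ2
  have hxr : (0 : ℝ) < x := by exact_mod_cast (by omega : 0 < x)
  have hl2 : 1 ≤ Nat.log 2 x := Nat.log_pos (by norm_num) (by omega)
  have hl2r : (1 : ℝ) ≤ (Nat.log 2 x : ℝ) := by exact_mod_cast hl2
  have hlog2 : (Nat.log 2 x : ℝ) ≤ 3 / 2 * L := by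
    have e1 : 2 ^ Nat.log 2 x ≤ x := Nat.pow_log_le_self 2 (by omega)
    have e2 : (2 : ℝ) ^ Nat.log 2 x ≤ N := by exact_mod_cast e1.trans hxN
    have e3 := Real.log_le_log (by positivity) e2
    rw [Real.log_pow, ← hLd] at e3
    have e4 := Real.log_two_gt_d9
    have e5 : (Nat.log 2 x : ℝ) * (2 / 3) ≤ (Nat.log 2 x : ℝ) * Real.log 2 := by
      apply mul_le_mul_of_nonneg_left _ (by linarith)
      linarith
    linarith
  obtain ⟨ρ, hρ⟩ : ∃ ρ : ℝ, ρ = (P.card : ℝ) / (Nat.log 2 x : ℝ) := ⟨_, rfl⟩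
  have hρ1 : (y : ℝ) ^ (1 / 2 + δ) ≤ 3 / 2 * ρ := by
    rw [hρ, mul_div_assoc', le_div_iff₀ (by linarith)]
    calc (y : ℝ) ^ (1 / 2 + δ) * (Nat.log 2 x : ℝ) ≤ (y : ℝ) ^ (1 / 2 + δ) * (3 / 2 * L) := by gcongr
      _ = 3 / 2 * ((y : ℝ) ^ (1 / 2 + δ) * L) := by ring
      _ ≤ _ := mul_le_mul_of_nonneg_left hcard (by norm_num)
  have hyp0 : 0 < (y : ℝ) ^ (1 / 2 + δ) := by positivity
  have hρ0 : 0 < ρ := by linarith
  refine ⟨ρ, w, ⟨fun p hp => (hP p hp).1, fun p hp => (hP p hp).2, ?_, hρ0, hyδ2, ?_, ?_, ?_, by omega⟩, ?_, ?_, by omega⟩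
  · rw [hρ, div_mul_cancel₀ _ (by linarith)]
  · -- y w² ≤ ρ²
    have e1 : (y : ℝ) ^ (1 / 2 + δ) = √(y : ℝ) * (w * w) := by
      rw [Real.rpow_add hy0, ← Real.sqrt_eq_rpow, hw, ← Real.rpow_add hy0]
      congr 2
      ring
    rw [e1] at hρ1
    have e2 : 0 ≤ √(y : ℝ) * (w * w) := by positivity
    have e3 := pow_le_pow_left₀ e2 hρ1 2
    have e4 : (√(y : ℝ) * (w * w)) ^ 2 = y * w ^ 2 * w ^ 2 := by
      rw [mul_pow, Real.sq_sqrt hy0.le]
      ring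
    rw [e4] at e3
    have e5 : 4 ≤ w ^ 2 := by nlinarith
    have e6 : y * w ^ 2 * 4 ≤ y * w ^ 2 * w ^ 2 := mul_le_mul_of_nonneg_left e5 (by positivity)
    have e7 : (0 : ℝ) ≤ y * w ^ 2 := by positivity
    nlinarith
  · rw [hw, ← Real.rpow_mul_natCast hy0.le]
    have e1 : 1 ≤ δ / 2 * m := by
      rw [div_le_iff₀ hδ] at hm
      linarith
    calc (y : ℝ) = (y : ℝ) ^ (1 : ℝ) := (Real.rpow_one _).symm
      _ ≤ _ := Real.rpow_le_rpow_of_exponent_le hy1r e1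
  · have : (4 : ℝ) ≤ y := by nlinarith
    exact_mod_cast this
  · rw [Nat.cast_mul, Real.log_mul (by exact_mod_cast (by omega : Cx ≠ 0)) (by exact_mod_cast (by omega : N ≠ 0)), ← hLd]
    nlinarith
  · have hB0 : (0 : ℝ) < B := by
      have : 0 < B := by
        rcases Nat.eq_zero_or_pos B with h0 | h0
        · rw [h0] at hNx; omega
        · exact h0
      exact_mod_cast this
    have e1 : (y : ℝ) ^ V ≤ L ^ (K * V) := by
      rw [pow_mul]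
      exact pow_le_pow_left₀ hy0.le hyK _
    have e3 : √(N : ℝ) ≤ N := by
      rw [Real.sqrt_le_left (by positivity)]
      have : (1 : ℝ) ≤ N := by exact_mod_cast (by omega : 1 ≤ N)
      nlinarith
    have e4 : (N : ℝ) ≤ B * x := by exact_mod_cast hNx
    have e5 : (B : ℝ) * (y : ℝ) ^ V ≤ B * x := by
      calc (B : ℝ) * (y : ℝ) ^ V ≤ B * L ^ (K * V) := mul_le_mul_of_nonneg_left e1 hB0.le
        _ ≤ B * x := hV.trans (e3.trans e4)
    have e6 := le_of_mul_le_mul_left e5 hB0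
    exact_mod_cast e6

/-- the characteristic function of the law -/
lemma sm_FL (δ : ℝ) (hδ : 0 < δ) (B K Cx κ V : ℕ) (hCx : 1 ≤ Cx) (hκ : 1 ≤ κ) : ∃ C N₀ : ℕ, ∀ N, N₀ ≤ N → ∀ (Ω : Finset ℕ) (p : ℕ → ℝ),
    Sm δ B K N Ω p → ∀ cc : ℤ, (∀ v ∈ Ω, p v ≤ 1 / Real.log ((Cx * N : ℕ) : ℝ) ^ V) ∧ ∑ v ∈ Ω, p v = 1 ∧
      FL (Cx * N) (2 * (Cx * N)) C V Ω p (fun v => cc + (κ : ℤ) * v) := by
  obtain ⟨m, hm⟩ := sm_facts δ hδ B K Cx hCx
  obtain ⟨c1, hc1⟩ : ∃ c1, c1 = m * (14 + 2 * V) := ⟨_, rfl⟩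
  obtain ⟨N1, h1⟩ := hm (c1 + 8 + 2 * V)
  obtain ⟨N2, h2⟩ := ev_L' (((κ + 3) * (4 * Cx * B + 1) : ℕ) : ℝ)
  refine ⟨3 * (K * c1) + 1, N1 + N2 + 3, fun N hN Ω p hL cc => ?_⟩
  obtain ⟨P, y, x, hxN, hNx, hP, hy1, hyK, hcard, rfl, rfl⟩ := hL
  obtain ⟨ρ, w, hyp, f1, f2, f3⟩ := h1 N (by omega) P y x hxN hNx hP hy1 hyK hcard
  have f5 := h2 N (by omega)
  have hyn : 0 < y := by omega
  have hy1r : (1 : ℝ) ≤ y := by exact_mod_cast hy1
  have hy0 : (0 : ℝ) < y := by linarith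
  obtain ⟨X, hX⟩ : ∃ X, X = Cx * N := ⟨_, rfl⟩
  rw [← hX] at f1 ⊢
  have hNX : N ≤ X := by rw [hX]; exact Nat.le_mul_of_pos_left _ (by omega)
  have hX3 : 3 ≤ X := by omega
  have hLX0 : 0 < Real.log X := Real.log_pos (by exact_mod_cast (by omega : 1 < X))
  have hNX' : Real.log N ≤ Real.log X := Real.log_le_log (by exact_mod_cast (by omega : 0 < N)) (by exact_mod_cast hNX)
  obtain ⟨S, hS⟩ : ∃ S : ℝ, S = (SS P x).card := ⟨_, rfl⟩
  have f4 : ρ ^ (c1 + 8 + 2 * V) ≤ S := by rw [hS]; exact low hyp _ f2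
  have hS1 : (1 : ℝ) ≤ S := by rw [hS]; exact_mod_cast card_SS_pos P f3
  have hS0 : 0 < S := by linarith
  have hρ1 : 1 ≤ ρ := by have := hyp.r4; linarith
  have hVS : Real.log X ^ V ≤ S := by
    have e1 : (y : ℝ) ≤ ρ ^ 2 := by
      have a1 := hyp.yw
      have a2 := hyp.w2
      have a3 : 1 ≤ w ^ 2 := by nlinarith
      nlinarith
    calc Real.log X ^ V ≤ (y : ℝ) ^ V := pow_le_pow_left₀ hLX0.le f1 V
      _ ≤ (ρ ^ 2) ^ V := pow_le_pow_left₀ hy0.le e1 V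
      _ = ρ ^ (2 * V) := by rw [← pow_mul]
      _ ≤ ρ ^ (c1 + 8 + 2 * V) := pow_le_pow_right₀ hρ1 (by omega)
      _ ≤ S := f4
  refine ⟨?_, ?_, ?_⟩
  · intro v _
    rw [← hS]
    exact one_div_le_one_div_of_le (by positivity) hVS
  · rw [sum_const, nsmul_eq_mul, ← hS]
    field_simp
  · refine ⟨fun v _ => by positivity, ?_, ?_⟩
    · rw [sum_const, nsmul_eq_mul, ← hS]
      apply le_of_eq
      field_simp
    obtain ⟨Q, hQ⟩ : ∃ Q, Q = y ^ c1 := ⟨_, rfl⟩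
    have hQ1 : 1 ≤ Q := by rw [hQ]; exact Nat.pow_pos hyn
    have hQx : Q ≤ x := by
      rw [hQ]
      exact (Nat.pow_le_pow_right hyn (by omega)).trans f2
    refine ⟨maj κ (2 * X) x Q, ?_, ?_⟩
    · have e1 := maj_card κ (2 * X) x Q hκ (by omega) hQ1 hQx
      have hQr : (1 : ℝ) ≤ Q := by exact_mod_cast hQ1
      have hx0 : (0 : ℝ) < x := by exact_mod_cast (by omega : 0 < x)
      have hXx : ((2 * X : ℕ) : ℝ) ≤ 2 * Cx * B * x := by
        have : 2 * X ≤ 2 * Cx * B * x := by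
          rw [hX]
          calc 2 * (Cx * N) ≤ 2 * (Cx * (B * x)) := Nat.mul_le_mul_left _ (Nat.mul_le_mul_left _ hNx)
            _ = _ := by ring
        exact_mod_cast this
      have e2 : 2 * (Q : ℝ) * ((2 * X : ℕ) : ℝ) / x + 1 ≤ (4 * Cx * B + 1) * Q := by
        have : 2 * (Q : ℝ) * ((2 * X : ℕ) : ℝ) / x ≤ 4 * Cx * B * Q := by
          rw [div_le_iff₀ hx0]
          calc 2 * (Q : ℝ) * ((2 * X : ℕ) : ℝ) ≤ 2 * (Q : ℝ) * (2 * Cx * B * x) := mul_le_mul_of_nonneg_left hXx (by positivity)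
            _ = _ := by ring
        linarith
      have e3 : ((κ : ℝ) + 2) * Q + 1 ≤ (κ + 3) * Q := by linarith
      have e4 : (Q : ℝ) ≤ Real.log X ^ (K * c1) := by
        rw [hQ, pow_mul]
        push_cast
        apply pow_le_pow_left₀ hy0.le
        exact hyK.trans (pow_le_pow_left₀ (Real.log_natCast_nonneg _) hNX' K)
      calc ((maj κ (2 * X) x Q).card : ℝ) ≤ (Q : ℝ) * ((κ + 2) * Q + 1) * (2 * Q * ((2 * X : ℕ) : ℝ) / x + 1) := e1
        _ ≤ (Q : ℝ) * ((κ + 3) * Q) * ((4 * Cx * B + 1) * Q) := by gcongr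
        _ = ((κ + 3) * (4 * Cx * B + 1) : ℝ) * (Q : ℝ) ^ 3 := by ring
        _ ≤ Real.log X * (Real.log X ^ (K * c1)) ^ 3 := by
            apply mul_le_mul _ (pow_le_pow_left₀ (by positivity) e4 3) (by positivity) hLX0.le
            refine le_trans (le_of_eq ?_) (f5.trans hNX')
            push_cast
            ring
        _ = Real.log X ^ (3 * (K * c1) + 1) := by
            rw [← pow_mul]
            ring
    · intro t ht hnt
      obtain ⟨k, hk⟩ : ∃ k, k = Nat.log y x := ⟨_, rfl⟩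
      have hy2 : 1 < y := by have := hyp.y4; omega
      have hk1 : y ^ k ≤ x := by
        rw [hk]
        exact Nat.pow_log_le_self _ (by omega)
      have hk2 : x < y ^ (k + 1) := by
        have := Nat.lt_pow_succ_log_self hy2 x
        rw [← hk] at this
        exact this
      have hk3 : m * (14 + 2 * V) + 8 ≤ k := by
        rw [hk]
        apply Nat.le_log_of_pow_le hy2
        exact (Nat.pow_le_pow_right hyn (by omega)).trans f2
      obtain ⟨θ, hθ⟩ : ∃ θ : ℝ, θ = (κ : ℝ) * ((t : ℝ) / ((2 * X : ℕ) : ℝ)) := ⟨_, rfl⟩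
      rcases exp_alt hyp k V hk1 hk2 hk3 θ with h | ⟨q, c, hq1, hq2, hq3⟩
      · have e1 : ∑ v ∈ SS P x, (((1 / ((SS P x).card : ℝ) : ℝ)) : ℂ) * ee (((cc + (κ : ℤ) * (v : ℤ) : ℤ) : ℝ) * ((t : ℝ) / ((2 * X : ℕ) : ℝ))) =
            ((1 / S : ℝ) : ℂ) * ee ((cc : ℝ) * ((t : ℝ) / ((2 * X : ℕ) : ℝ))) * ∑ v ∈ SS P x, ee ((v : ℝ) * θ) := by
          rw [mul_sum]
          apply sum_congr rfl
          intro v _
          rw [← hS, mul_assoc, ← ee_add]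
          congr 2
          rw [hθ]
          push_cast
          ring
        rw [e1, norm_mul, norm_mul, norm_ee, mul_one, Complex.norm_real, Real.norm_of_nonneg (by positivity)]
        rw [← hS] at h
        calc 1 / S * ‖∑ v ∈ SS P x, ee ((v : ℝ) * θ)‖ ≤ 1 / S * (S / (y : ℝ) ^ V) := mul_le_mul_of_nonneg_left h (by positivity)
          _ = 1 / (y : ℝ) ^ V := by field_simp
          _ ≤ 1 / Real.log X ^ V := one_div_le_one_div_of_le (by positivity) (pow_le_pow_left₀ hLX0.le f1 V)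
      · exfalso
        apply hnt
        rw [mem_maj]
        rw [← hc1] at hq2 hq3
        refine ⟨ht, q, c, hq1, by rw [hQ]; exact hq2, ?_⟩
        rw [hθ] at hq3
        rw [hQ]
        push_cast
        push_cast at hq3
        exact hq3

theorem sm_one (δ : ℝ) (hδ : 0 < δ) (B K : ℕ) (κκ : ℕ) (hκκ : 1 ≤ κκ) (Bc U : ℕ) : OneLaw (Sm δ B K) κκ Bc U := by
  obtain ⟨A, hA⟩ : ∃ A, A = Bc + κκ := ⟨_, rfl⟩
  obtain ⟨C, N1, h1⟩ := sm_FL δ hδ B K (A + 1) κκ (2 * (U + 1) + 6) (by omega) hκκ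
  obtain ⟨B1, h2⟩ := fl_one (U + 1) C
  refine ⟨A, 2 * B1, fun E => ?_⟩
  obtain ⟨X₀, h3⟩ := h2 E
  obtain ⟨N2, h4⟩ := ev_L' (Real.log ((A + 1 : ℕ) : ℝ) + (A + 1 : ℕ) + 2)
  refine ⟨X₀ + N1 + N2 + 3, fun N hN Ω p hL cc hcc => ?_⟩
  obtain ⟨g1, g2, g3⟩ := h1 N (by omega) Ω p hL (cc : ℤ)
  obtain ⟨X, hX⟩ : ∃ X, X = (A + 1) * N := ⟨_, rfl⟩
  rw [← hX] at g1 g3
  have hNX : N ≤ X := by rw [hX]; exact Nat.le_mul_of_pos_left _ (by omega)
  have hL0 := h4 N (by omega)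
  have hlA : 0 ≤ Real.log ((A + 1 : ℕ) : ℝ) := Real.log_natCast_nonneg _
  have hA0 : (0 : ℝ) ≤ ((A + 1 : ℕ) : ℝ) := Nat.cast_nonneg _
  have hNr : (0 : ℝ) < N := by exact_mod_cast (by omega : 0 < N)
  have hLN2 : 2 ≤ Real.log N := by linarith
  have hLN0 : 0 < Real.log N := by linarith
  have hLX : Real.log X = Real.log ((A + 1 : ℕ) : ℝ) + Real.log N := by
    rw [hX, Nat.cast_mul, Real.log_mul (by positivity) hNr.ne']
  have hLNX : Real.log N ≤ Real.log X := by linarith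
  have hΩ : ∀ v ∈ Ω, v ≤ N := by
    obtain ⟨P, y, x, hxN, _, _, _, _, _, rfl, _⟩ := hL
    intro v hv
    exact (mem_SS.1 hv).1.2.trans hxN
  have hAv : ∀ v ∈ Ω, cc + κκ * v ≤ A * N := by
    intro v hv
    have := Nat.mul_le_mul_left κκ (hΩ v hv)
    rw [hA, add_mul]
    omega
  refine ⟨g3.nonneg, g2, ?_, hAv, ?_⟩
  · intro v hv
    refine (g1 v hv).trans ?_
    apply one_div_le_one_div_of_le (by positivity)
    calc Real.log N ^ U ≤ Real.log N ^ (2 * (U + 1) + 6) := pow_le_pow_right₀ (by linarith) (by omega)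
      _ ≤ _ := pow_le_pow_left₀ hLN0.le hLNX _
  · intro z hz1 hz2 Kc hKc G hG
    have e1 : Real.log X ^ B1 ≤ z := by
      refine le_trans ?_ hz1
      rw [pow_mul]
      apply pow_le_pow_left₀ (by linarith)
      rw [hLX]
      nlinarith
    have e2 : (z : ℝ) ≤ Real.log X ^ E := hz2.trans (pow_le_pow_left₀ hLN0.le hLNX _)
    have e3 := h3 X (by omega) (2 * X) le_rfl z e1 e2 ℕ Ω p (fun v => (cc : ℤ) + (κκ : ℤ) * v) g3 g2 N (by
      intro v hv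
      have e4 := hAv v hv
      have e5 : (((cc + κκ * v : ℕ)) : ℤ) ≤ ((A * N : ℕ) : ℤ) := by exact_mod_cast e4
      push_cast at e5
      have e6 : (0 : ℤ) ≤ (cc : ℤ) + (κκ : ℤ) * v := by positivity
      have e7 : (X : ℤ) = A * N + N := by rw [hX]; push_cast; ring
      constructor
      · omega
      · rw [e7]
        linarith) hNX Kc hKc G hG
    have e4 : ∀ v : ℕ, ((cc + κκ * v : ℕ) : ℤ) = (cc : ℤ) + (κκ : ℤ) * v := fun v => by push_cast; ring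
    simp only [e4]
    refine e3.trans ?_
    apply mul_le_mul_of_nonneg_left _ hKc.le
    have hXr : (X : ℝ) = ((A + 1 : ℕ) : ℝ) * N := by rw [hX, Nat.cast_mul]
    calc (X : ℝ) / Real.log X ^ (U + 1) ≤ (X : ℝ) / Real.log N ^ (U + 1) :=
          div_le_div_of_nonneg_left (by positivity) (by positivity) (pow_le_pow_left₀ hLN0.le hLNX _)
      _ = (((A + 1 : ℕ) : ℝ) / Real.log N) * (N / Real.log N ^ U) := by
          rw [hXr, pow_succ]
          field_simp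
      _ ≤ 1 * (N / Real.log N ^ U) := by
          apply mul_le_mul_of_nonneg_right _ (by positivity)
          rw [div_le_one hLN0]
          linarith
      _ = _ := one_mul _

end Pool.Agent.N469.SQ
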